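import Pool.Agent.KAU.St

/-!
# KAU, B1q: the row 0 is incomplete
-/

set_option autoImplicit false

noncomputable section

open Finset Pool.Agent.Helper64.Rho Pool.Agent.SDG Pool.Agent.MDR Pool.Agent.SSE Pool.Agent.KAT
open scoped Classical Pointwise

namespace Pool.Agent.KAU

private theorem B1_mem3 {G : Type} [AddCommGroup G] (D : Finset G) (a b c : G) (ha : a ∈ D) (hb : b ∈ D)
    (hc : c ∈ D) : a + b + c ∈ it D 3 := by
  have h1 : a ∈ it D 1 := by
    have : it D 1 = {0} + D := rfl
    rw [this]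
    exact mem_add.2 ⟨0, mem_singleton_self 0, a, ha, zero_add a⟩
  have h2 : a + b ∈ it D 2 := by
    have : it D 2 = it D 1 + D := rfl
    rw [this]
    exact add_mem_add h1 hb
  have h3 : it D 3 = it D 2 + D := rfl
  rw [h3]
  exact add_mem_add h2 hc

private theorem B1_of3 {G : Type} [AddCommGroup G] (D : Finset G) (x : G) (hx : x ∈ it D 3) :
    ∃ a ∈ D, ∃ b ∈ D, ∃ c ∈ D, x = a + b + c := by
  have h3 : it D 3 = {0} + D + D + D := rfl
  rw [h3] at hx
  obtain ⟨y, hy, c, hc, rfl⟩ := mem_add.1 hx
  obtain ⟨z, hz, b, hb, rfl⟩ := mem_add.1 hy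
  obtain ⟨o, ho, a, ha, rfl⟩ := mem_add.1 hz
  rw [mem_singleton] at ho
  subst ho
  exact ⟨a, ha, b, hb, c, hc, by rw [zero_add]⟩

private theorem B1_row {G : Type} [AddCommGroup G] (D : Finset G) (K : AddSubgroup G) (γ : G ⧸ K)
    (h : 1 ≤ (rq D K γ).card) : ∃ y ∈ D, (QuotientAddGroup.mk y : G ⧸ K) = γ := by
  obtain ⟨y, hy⟩ := card_pos.1 h
  exact ⟨y, (mem_filter.1 hy).1, (mem_filter.1 hy).2⟩

/-- periodicity goes from the third step to all later steps -/
private theorem B1_per {G : Type} [AddCommGroup G] (D : Finset G) (K : AddSubgroup G)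
    (h3 : ∀ x ∈ it D 3, ∀ y : G, y - x ∈ K → y ∈ it D 3) (i : ℕ) (hi : 3 ≤ i) :
    ∀ x ∈ it D i, ∀ y : G, y - x ∈ K → y ∈ it D i := by
  induction i, hi using Nat.le_induction with
  | base => exact h3
  | succ i hi ih =>
    intro x hx y hy
    have h1 : it D (i + 1) = it D i + D := rfl
    rw [h1] at hx ⊢
    obtain ⟨a, ha, b, hb, rfl⟩ := mem_add.1 hx
    have h2 : y - b ∈ it D i := by
      apply ih a ha
      have h4 : y - b - a = y - (a + b) := by abel
      rw [h4]
      exact hy
    exact mem_add.2 ⟨y - b, h2, b, hb, sub_add_cancel y b⟩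

/-- **B1.** -/
theorem thm_B1q : St_Rw → Pool.Agent.KAT.St_Sg → St_Fr → St_Pk → St_B1q := by
  intro hRw hSg hFr hPk G _ _ κ l D d γ hH hN hT
  obtain ⟨hd, hne, hw0, hwγ, ht0, htγ, hfull, hsum⟩ := hT
  obtain ⟨-, -, -, -, him, hneg, -, hall, -, -⟩ := hRw G D (AddSubgroup.zmultiples d)
  have hSY := hH.sy
  obtain ⟨h0D, hsym, -⟩ := hH.sy
  have hneg' := hneg hsym
  have hKb : AddSubgroup.zmultiples d ≠ ⊥ := by
    intro h
    exact hd (AddSubgroup.zmultiples_eq_bot.1 h)
  have hγ0 : γ ≠ 0 := hne.symm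
  have hγγ : γ + γ = 0 := by
    have h3 : -γ = γ := by
      by_contra hcon
      have h4 : -γ ≠ 0 := fun h => hγ0 (neg_eq_zero.1 h)
      have h7 : -γ ∈ im D (AddSubgroup.zmultiples d) := by
        rw [him, hneg']
        exact hwγ
      have h8 := hfull _ h7 h4 hcon
      rw [hneg'] at h8
      omega
    calc γ + γ = -γ + γ := by rw [h3]
      _ = 0 := neg_add_cancel γ
  obtain ⟨-, -, hS3, -⟩ := hSg G D d γ
  obtain ⟨hev, g, hgγ, hgd⟩ := hS3 hSY htγ hγγ hγ0
  obtain ⟨g0, hg0D, hg0⟩ := B1_row D _ γ hwγ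
  have hex : ∃ δ ∈ im D (AddSubgroup.zmultiples d), δ ≠ 0 ∧ δ ≠ γ := by
    by_contra hcon
    push Not at hcon
    apply hH.nc
    refine ⟨g, fun x => ?_⟩
    have hdg : d ∈ AddSubgroup.zmultiples g := by
      rw [← hgd]
      exact AddSubgroup.add_mem _ (AddSubgroup.mem_zmultiples g) (AddSubgroup.mem_zmultiples g)
    have hKg : AddSubgroup.zmultiples d ≤ AddSubgroup.zmultiples g := by
      rw [AddSubgroup.zmultiples_le]
      exact hdg
    have hDg : AddSubgroup.closure (D : Set G) ≤ AddSubgroup.zmultiples g := by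
      rw [AddSubgroup.closure_le]
      intro y hy
      have hyD : y ∈ D := mem_coe.1 hy
      by_cases h1 : (QuotientAddGroup.mk y : G ⧸ AddSubgroup.zmultiples d) = 0
      · exact hKg ((QuotientAddGroup.eq_zero_iff y).1 h1)
      · have h2 : (QuotientAddGroup.mk y : G ⧸ AddSubgroup.zmultiples d) = γ :=
          hcon _ (mem_image.2 ⟨y, hyD, rfl⟩) h1
        have h3 : (QuotientAddGroup.mk (y - g) : G ⧸ AddSubgroup.zmultiples d) = 0 := by
          rw [QuotientAddGroup.mk_sub, h2, hgγ, sub_self]
        have h4 := hKg ((QuotientAddGroup.eq_zero_iff (y - g)).1 h3)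
        have h5 := AddSubgroup.add_mem _ h4 (AddSubgroup.mem_zmultiples g)
        rwa [sub_add_cancel] at h5
    rw [hH.cl] at hDg
    exact hDg (AddSubgroup.mem_top x)
  obtain ⟨δ, hδ, hδ0, hδγ⟩ := hex
  have hfδ := hfull δ hδ hδ0 hδγ
  obtain ⟨e, heD, he⟩ := B1_row D _ δ ((him δ).1 hδ)
  have heδ : ∀ x : G, (QuotientAddGroup.mk x : G ⧸ AddSubgroup.zmultiples d) = δ → x ∈ D :=
    (hall δ).1 hfδ
  -- the rows different from `0`, `γ` are full
  have hrow : ∀ a ∈ D, (QuotientAddGroup.mk a : G ⧸ AddSubgroup.zmultiples d) ≠ 0 →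
      (QuotientAddGroup.mk a : G ⧸ AddSubgroup.zmultiples d) ≠ γ →
      ∀ x : G, x - a ∈ AddSubgroup.zmultiples d → x ∈ D := by
    intro a ha h1 h2 x hx
    have h3 : (QuotientAddGroup.mk a : G ⧸ AddSubgroup.zmultiples d) ∈
        im D (AddSubgroup.zmultiples d) := mem_image.2 ⟨a, ha, rfl⟩
    have h4 := (hall _).1 (hfull _ h3 h1 h2)
    apply h4
    have h5 : (QuotientAddGroup.mk (x - a) : G ⧸ AddSubgroup.zmultiples d) = 0 :=
      (QuotientAddGroup.eq_zero_iff (x - a)).2 hx
    rw [QuotientAddGroup.mk_sub, sub_eq_zero] at h5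
    exact h5
  have h3 : ∀ x ∈ it D 3, ∀ y : G, y - x ∈ AddSubgroup.zmultiples d → y ∈ it D 3 := by
    intro x hx y hy
    obtain ⟨a, ha, b, hb, c, hc, rfl⟩ := B1_of3 D x hx
    have hyx : (QuotientAddGroup.mk y : G ⧸ AddSubgroup.zmultiples d) =
        QuotientAddGroup.mk a + QuotientAddGroup.mk b + QuotientAddGroup.mk c := by
      have h5 : (QuotientAddGroup.mk (y - (a + b + c)) : G ⧸ AddSubgroup.zmultiples d) = 0 :=
        (QuotientAddGroup.eq_zero_iff _).2 hy
      rw [QuotientAddGroup.mk_sub, sub_eq_zero, QuotientAddGroup.mk_add,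
        QuotientAddGroup.mk_add] at h5
      exact h5
    by_cases hA : (QuotientAddGroup.mk a : G ⧸ AddSubgroup.zmultiples d) = 0 ∨
        (QuotientAddGroup.mk a : G ⧸ AddSubgroup.zmultiples d) = γ
    · by_cases hB : (QuotientAddGroup.mk b : G ⧸ AddSubgroup.zmultiples d) = 0 ∨
          (QuotientAddGroup.mk b : G ⧸ AddSubgroup.zmultiples d) = γ
      · by_cases hC : (QuotientAddGroup.mk c : G ⧸ AddSubgroup.zmultiples d) = 0 ∨
            (QuotientAddGroup.mk c : G ⧸ AddSubgroup.zmultiples d) = γ
        · -- all rows are `0` or `γ`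
          have hy2 : (QuotientAddGroup.mk y : G ⧸ AddSubgroup.zmultiples d) = 0 ∨
              (QuotientAddGroup.mk y : G ⧸ AddSubgroup.zmultiples d) = γ := by
            rw [hyx]
            rcases hA with h | h <;> rcases hB with h' | h' <;> rcases hC with h'' | h'' <;>
              rw [h, h', h''] <;> simp [hγγ]
          rcases hy2 with h | h
          · have h6 : (QuotientAddGroup.mk (y + e) : G ⧸ AddSubgroup.zmultiples d) = δ := by
              rw [QuotientAddGroup.mk_add, h, he, zero_add]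
            have h7 := B1_mem3 D (y + e) (-e) 0 (heδ _ h6) (hsym e heD) h0D
            have h8 : y + e + -e + 0 = y := by abel
            rw [h8] at h7
            exact h7
          · have h6 : (QuotientAddGroup.mk (y + e - g0) : G ⧸ AddSubgroup.zmultiples d) = δ := by
              rw [QuotientAddGroup.mk_sub, QuotientAddGroup.mk_add, h, he, hg0]
              abel
            have h7 := B1_mem3 D (y + e - g0) (-e) g0 (heδ _ h6) (hsym e heD) hg0D
            have h8 : y + e - g0 + -e + g0 = y := by abel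
            rw [h8] at h7
            exact h7
        · push Not at hC
          have h6 := hrow c hc hC.1 hC.2 (y - a - b) (by
            have h7 : y - a - b - c = y - (a + b + c) := by abel
            rw [h7]
            exact hy)
          have h7 := B1_mem3 D (y - a - b) a b h6 ha hb
          have h8 : y - a - b + a + b = y := by abel
          rw [h8] at h7
          exact h7
      · push Not at hB
        have h6 := hrow b hb hB.1 hB.2 (y - a - c) (by
          have h7 : y - a - c - b = y - (a + b + c) := by abel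
          rw [h7]
          exact hy)
        have h7 := B1_mem3 D (y - a - c) a c h6 ha hc
        have h8 : y - a - c + a + c = y := by abel
        rw [h8] at h7
        exact h7
    · push Not at hA
      have h6 := hrow a ha hA.1 hA.2 (y - b - c) (by
        have h7 : y - b - c - a = y - (a + b + c) := by abel
        rw [h7]
        exact hy)
      have h7 := B1_mem3 D (y - b - c) b c h6 hb hc
      have h8 : y - b - c + b + c = y := by abel
      rw [h8] at h7
      exact h7
  intro i hi
  have hper := B1_per D (AddSubgroup.zmultiples d) h3 i hi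
  have hst : st (it D i) (AddSubgroup.zmultiples d) ⊆ it D i := by
    intro x hx
    unfold st at hx
    simp only [Set.Finite.mem_toFinset, Set.mem_ofPred_eq] at hx
    obtain ⟨a, ha, hxa⟩ := hx
    exact hper a ha x hxa
  have hst' : (st (it D i) (AddSubgroup.zmultiples d)).card ≤ (it D i).card + 0 :=
    card_le_card hst
  rcases hPk G D (AddSubgroup.zmultiples d) i 0 h0D hN hKb (by omega) hst' with h | h
  · left
    omega
  · right
    left
    rw [hH.cd] at h
    have e1 : 2 * l + 1 + 1 = 2 * l + 2 := by omega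
    rw [e1] at h
    omega

end Pool.Agent.KAU
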