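import Pool.Agent.KAU.St

/-!
# KAU, B2q: the row 0 is full, two incomplete rows of order two
-/

set_option autoImplicit false

noncomputable section

open Finset Pool.Agent.Helper64.Rho Pool.Agent.SDG Pool.Agent.MDR Pool.Agent.SSE Pool.Agent.KAT
open scoped Classical Pointwise

namespace Pool.Agent.KAU

private theorem B2q_mem3 {G : Type} [AddCommGroup G] (D : Finset G) (a b c : G) (ha : a ∈ D) (hb : b ∈ D)
    (hc : c ∈ D) : a + b + c ∈ it D 3 := by
  have h1 : a ∈ it D 1 := by
    have : it D 1 = {0} + D := rfl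
    rw [this]
    exact mem_add.2 ⟨0, mem_singleton_self 0, a, ha, zero_add a⟩
  have h2 : a + b ∈ it D 2 := by
    have : it D 2 = it D 1 + D := rfl
    rw [this]
    exact add_mem_add h1 hb
  have h3 : it D 3 = it D 2 + D := rfl
  rw [h3]
  exact add_mem_add h2 hc

private theorem B2q_of3 {G : Type} [AddCommGroup G] (D : Finset G) (x : G) (hx : x ∈ it D 3) :
    ∃ a ∈ D, ∃ b ∈ D, ∃ c ∈ D, x = a + b + c := by
  have h3 : it D 3 = {0} + D + D + D := rfl
  rw [h3] at hx
  obtain ⟨y, hy, c, hc, rfl⟩ := mem_add.1 hx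
  obtain ⟨z, hz, b, hb, rfl⟩ := mem_add.1 hy
  obtain ⟨o, ho, a, ha, rfl⟩ := mem_add.1 hz
  rw [mem_singleton] at ho
  subst ho
  exact ⟨a, ha, b, hb, c, hc, by rw [zero_add]⟩

private theorem B2q_per {G : Type} [AddCommGroup G] (D : Finset G) (K : AddSubgroup G)
    (h3 : ∀ x ∈ it D 3, ∀ y : G, y - x ∈ K → y ∈ it D 3) (i : ℕ) (hi : 3 ≤ i) :
    ∀ x ∈ it D i, ∀ y : G, y - x ∈ K → y ∈ it D i := by
  induction i, hi using Nat.le_induction with
  | base => exact h3
  | succ i hi ih =>
    intro x hx y hy
    have h1 : it D (i + 1) = it D i + D := rfl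
    rw [h1] at hx ⊢
    obtain ⟨a, ha, b, hb, rfl⟩ := mem_add.1 hx
    have h2 : y - b ∈ it D i := by
      apply ih a ha
      have h4 : y - b - a = y - (a + b) := by abel
      rw [h4]
      exact hy
    exact mem_add.2 ⟨y - b, h2, b, hb, sub_add_cancel y b⟩

/-- **B2q.** -/
theorem thm_B2q : St_Rw → St_Fr → St_Pk → St_B2q := by
  intro hRw hFr hPk G _ _ κ l D d γ1 γ2 hH hN hT h1 h2 h11
  obtain ⟨hd, hne, hw1, hw2, -, -, hfull, hsum⟩ := hT
  obtain ⟨-, -, -, -, him, hneg, -, hall, -, -⟩ := hRw G D (AddSubgroup.zmultiples d)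
  obtain ⟨h0D, hsym, -⟩ := hH.sy
  have hneg' := hneg hsym
  have hKb : AddSubgroup.zmultiples d ≠ ⊥ := by
    intro h
    exact hd (AddSubgroup.zmultiples_eq_bot.1 h)
  have h0im : (0 : G ⧸ AddSubgroup.zmultiples d) ∈ im D (AddSubgroup.zmultiples d) := by
    unfold im
    exact mem_image.2 ⟨0, h0D, rfl⟩
  have hw0 := hfull 0 h0im h1.symm h2.symm
  have h22 : γ2 + γ2 = 0 := by
    have h3 : -γ2 = γ2 := by
      by_contra hcon
      have h4 : -γ2 ≠ γ1 := by
        intro h5
        apply hne
        have h6 : γ2 = -γ1 := by rw [← h5, neg_neg]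
        rw [h6]
        exact eq_neg_of_add_eq_zero_left h11
      have h7 : -γ2 ∈ im D (AddSubgroup.zmultiples d) := by
        rw [him, hneg']
        exact hw2
      have h8 := hfull _ h7 h4 hcon
      rw [hneg'] at h8
      omega
    calc γ2 + γ2 = -γ2 + γ2 := by rw [h3]
      _ = 0 := neg_add_cancel γ2
  have hK : ∀ x : G, (QuotientAddGroup.mk x : G ⧸ AddSubgroup.zmultiples d) = 0 → x ∈ D := (hall 0).1 hw0
  -- the rows different from `γ1`, `γ2` are full
  have hrow : ∀ a ∈ D, (QuotientAddGroup.mk a : G ⧸ AddSubgroup.zmultiples d) ≠ γ1 →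
      (QuotientAddGroup.mk a : G ⧸ AddSubgroup.zmultiples d) ≠ γ2 →
      ∀ x : G, x - a ∈ AddSubgroup.zmultiples d → x ∈ D := by
    intro a ha h3 h4 x hx
    have h5 : (QuotientAddGroup.mk a : G ⧸ AddSubgroup.zmultiples d) ∈
        im D (AddSubgroup.zmultiples d) := mem_image.2 ⟨a, ha, rfl⟩
    have h6 := (hall _).1 (hfull _ h5 h3 h4)
    apply h6
    have h7 : (QuotientAddGroup.mk (x - a) : G ⧸ AddSubgroup.zmultiples d) = 0 :=
      (QuotientAddGroup.eq_zero_iff (x - a)).2 hx
    rw [QuotientAddGroup.mk_sub, sub_eq_zero] at h7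
    exact h7
  -- two elements of the same incomplete row
  have htwo : ∀ a b c y : G, c ∈ D → y - (a + b + c) ∈ AddSubgroup.zmultiples d →
      (QuotientAddGroup.mk a : G ⧸ AddSubgroup.zmultiples d) + QuotientAddGroup.mk b = 0 → y ∈ it D 3 := by
    intro a b c y hc hy hab
    have h3 : (QuotientAddGroup.mk (y - c) : G ⧸ AddSubgroup.zmultiples d) = 0 := by
      have h5 : (QuotientAddGroup.mk (y - (a + b + c)) : G ⧸ AddSubgroup.zmultiples d) = 0 :=
        (QuotientAddGroup.eq_zero_iff _).2 hy
      have h6 : y - c = (y - (a + b + c)) + (a + b) := by abel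
      rw [h6, QuotientAddGroup.mk_add, h5, QuotientAddGroup.mk_add, hab, add_zero]
    have h4 := B2q_mem3 D (y - c) 0 c (hK _ h3) h0D hc
    have h8 : y - c + 0 + c = y := by abel
    rw [h8] at h4
    exact h4
  have h3 : ∀ x ∈ it D 3, ∀ y : G, y - x ∈ AddSubgroup.zmultiples d → y ∈ it D 3 := by
    intro x hx y hy
    obtain ⟨a, ha, b, hb, c, hc, rfl⟩ := B2q_of3 D x hx
    by_cases hA : (QuotientAddGroup.mk a : G ⧸ AddSubgroup.zmultiples d) = γ1 ∨
        (QuotientAddGroup.mk a : G ⧸ AddSubgroup.zmultiples d) = γ2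
    · by_cases hB : (QuotientAddGroup.mk b : G ⧸ AddSubgroup.zmultiples d) = γ1 ∨
          (QuotientAddGroup.mk b : G ⧸ AddSubgroup.zmultiples d) = γ2
      · by_cases hC : (QuotientAddGroup.mk c : G ⧸ AddSubgroup.zmultiples d) = γ1 ∨
            (QuotientAddGroup.mk c : G ⧸ AddSubgroup.zmultiples d) = γ2
        · have e1 : a + b + c = a + c + b := by abel
          have e2 : a + b + c = b + c + a := by abel
          rcases hA with hA | hA <;> rcases hB with hB | hB
          · exact htwo a b c y hc hy (by rw [hA, hB]; exact h11)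
          · rcases hC with hC | hC
            · rw [e1] at hy
              exact htwo a c b y hb hy (by rw [hA, hC]; exact h11)
            · rw [e2] at hy
              exact htwo b c a y ha hy (by rw [hB, hC]; exact h22)
          · rcases hC with hC | hC
            · rw [e2] at hy
              exact htwo b c a y ha hy (by rw [hB, hC]; exact h11)
            · rw [e1] at hy
              exact htwo a c b y hb hy (by rw [hA, hC]; exact h22)
          · exact htwo a b c y hc hy (by rw [hA, hB]; exact h22)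
        · push Not at hC
          have h6 := hrow c hc hC.1 hC.2 (y - a - b) (by
            have h7 : y - a - b - c = y - (a + b + c) := by abel
            rw [h7]
            exact hy)
          have h7 := B2q_mem3 D (y - a - b) a b h6 ha hb
          have h8 : y - a - b + a + b = y := by abel
          rw [h8] at h7
          exact h7
      · push Not at hB
        have h6 := hrow b hb hB.1 hB.2 (y - a - c) (by
          have h7 : y - a - c - b = y - (a + b + c) := by abel
          rw [h7]
          exact hy)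
        have h7 := B2q_mem3 D (y - a - c) a c h6 ha hc
        have h8 : y - a - c + a + c = y := by abel
        rw [h8] at h7
        exact h7
    · push Not at hA
      have h6 := hrow a ha hA.1 hA.2 (y - b - c) (by
        have h7 : y - b - c - a = y - (a + b + c) := by abel
        rw [h7]
        exact hy)
      have h7 := B2q_mem3 D (y - b - c) b c h6 hb hc
      have h8 : y - b - c + b + c = y := by abel
      rw [h8] at h7
      exact h7
  intro i hi
  have hper := B2q_per D (AddSubgroup.zmultiples d) h3 i hi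
  have hst : st (it D i) (AddSubgroup.zmultiples d) ⊆ it D i := by
    intro x hx
    unfold st at hx
    simp only [Set.Finite.mem_toFinset, Set.mem_ofPred_eq] at hx
    obtain ⟨a, ha, hxa⟩ := hx
    exact hper a ha x hxa
  have hst' : (st (it D i) (AddSubgroup.zmultiples d)).card ≤ (it D i).card + 0 :=
    card_le_card hst
  rcases hPk G D (AddSubgroup.zmultiples d) i 0 h0D hN hKb (by omega) hst' with h | h
  · left
    omega
  · right
    left
    rw [hH.cd] at h
    have e1 : 2 * l + 1 + 1 = 2 * l + 2 := by omega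
    rw [e1] at h
    omega

end Pool.Agent.KAU
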