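import Pool.Agent.KAU.St

/-!
# KAU, module B3: the row 0 is full, the incomplete rows are `γ`, `-γ`, and there is another row
-/

set_option autoImplicit false

noncomputable section

open Finset Pool.Agent.Helper64.Rho Pool.Agent.SDG Pool.Agent.MDR Pool.Agent.SSE Pool.Agent.KAT
open scoped Classical Pointwise

namespace Pool.Agent.KAU

/-- the multiples of a row are rows of the iterated sums -/
private theorem B3_mul {G : Type} [AddCommGroup G] [Finite G] (D : Finset G) (K : AddSubgroup G)
    (γ : G ⧸ K) (h : γ ∈ im D K) (him : ∀ i, im (it D i) K = it (im D K) i) (j : ℕ) :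
    j • γ ∈ im (it D j) K := by
  rw [him]
  induction j with
  | zero =>
    rw [zero_smul]
    exact Finset.mem_singleton_self _
  | succ j ih =>
    rw [succ_nsmul]
    exact (@Finset.mem_add (G ⧸ K) (fun a b => Classical.propDecidable (a = b)) _ _ _ _).2
      ⟨_, ih, _, h, rfl⟩

/-- all rows of the iterated sums but the two extreme ones are full -/
private theorem B3_full {G : Type} [AddCommGroup G] [Finite G] (hFr : St_Fr) (D : Finset G)
    (K : AddSubgroup G) (γ : G ⧸ K) (h0 : (0 : G) ∈ D) (hγ : γ ∈ im D K) (hγ' : -γ ∈ im D K)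
    (hf0 : (rq D K 0).card = Nat.card K)
    (hf : ∀ η ∈ im D K, η ≠ γ → η ≠ -γ → (rq D K η).card = Nat.card K) (i : ℕ) :
    ∀ η ∈ im (it D i) K, (rq (it D i) K η).card = Nat.card K ∨ η = i • γ ∨ η = -(i • γ) := by
  obtain ⟨him, h2, -, -, h5, -⟩ := hFr G D K
  have hmono : ∀ i, im (it D i) K ⊆ im (it D (i + 1)) K := by
    intro i
    exact Finset.image_subset_image (h5 h0 i (i + 1) (Nat.le_succ i))
  induction i with
  | zero =>
    intro η hη
    right
    left
    have h1 : η ∈ ({0} : Finset (G ⧸ K)) := by
      have h2 := him 0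
      rw [h2] at hη
      exact hη
    rw [zero_smul]
    exact Finset.mem_singleton.1 h1
  | succ i ih =>
    intro η hη
    -- rows `0 + η` are full
    have hz : ∀ η ∈ im (it D i) K, (rq (it D (i + 1)) K η).card = Nat.card K := by
      intro η hη
      have h3 := h2 D (it D i) 0 η hf0 hη
      rw [zero_add, add_comm D (it D i)] at h3
      exact h3
    rw [him] at hη
    obtain ⟨α, hα, β, hβ, rfl⟩ :=
      (@Finset.mem_add (G ⧸ K) (fun a b => Classical.propDecidable (a = b)) _ _ _ _).1 hη
    rw [← him] at hα
    by_cases hb : β = γ ∨ β = -γ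
    · rcases ih α hα with h3 | h3 | h3
      · left
        exact h2 (it D i) D α β h3 hβ
      · rcases hb with rfl | rfl
        · right
          left
          rw [h3, succ_nsmul]
        · rcases i with _ | i
          · right
            right
            rw [h3]
            simp
          · left
            apply hz
            have h4 : α + -γ = i • γ := by
              rw [h3, succ_nsmul]
              abel
            rw [h4]
            exact hmono i (B3_mul D K γ hγ him i)
      · rcases hb with rfl | rfl
        · rcases i with _ | i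
          · right
            left
            rw [h3]
            simp
          · left
            apply hz
            have h4 : α + β = i • (-β) := by
              rw [h3, succ_nsmul, smul_neg]
              abel
            rw [h4]
            exact hmono i (B3_mul D K (-β) hγ' him i)
        · right
          right
          rw [h3, succ_nsmul]
          abel
    · push Not at hb
      left
      have h3 := h2 D (it D i) β α (hf β hβ hb.1 hb.2) hα
      rw [add_comm β α, add_comm D (it D i)] at h3
      exact h3

theorem thm_B3q : St_Rw → St_Fr → St_Pk → St_B3q := by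
  intro hRw hFr hPk G _ _ κ l D d γ δ hH hN hT hγ0 hγγ hδ hδ0 hδ1 hδ2
  obtain ⟨-, -, -, -, h5, -, -, -, h9, -⟩ := hRw G D (AddSubgroup.zmultiples d)
  obtain ⟨hd, hne, hw1, hw2, -, -, hfull, hsum⟩ := hT
  have hSY := hH.sy
  have h0 : (0 : G) ∈ D := hSY.1
  have hKb : AddSubgroup.zmultiples d ≠ ⊥ := by
    intro h
    exact hd (AddSubgroup.zmultiples_eq_bot.1 h)
  have h0im : (0 : G ⧸ AddSubgroup.zmultiples d) ∈ im D (AddSubgroup.zmultiples d) :=
    Finset.mem_image.2 ⟨0, h0, rfl⟩
  have hγim : γ ∈ im D (AddSubgroup.zmultiples d) := (h5 γ).2 hw1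
  have hγim' : -γ ∈ im D (AddSubgroup.zmultiples d) := (h5 (-γ)).2 hw2
  have hf0 : (rq D (AddSubgroup.zmultiples d) 0).card = Nat.card (AddSubgroup.zmultiples d) :=
    hfull 0 h0im hγ0.symm (fun h => hγ0 (neg_eq_zero.1 h.symm))
  have hfδ : (rq D (AddSubgroup.zmultiples d) δ).card = Nat.card (AddSubgroup.zmultiples d) :=
    hfull δ hδ hδ1 hδ2
  obtain ⟨h91, h92⟩ := h9 hSY
  have hδδ : δ + δ ≠ 0 := by
    intro h
    have h1 := h91 δ h hδ0
    rw [hfδ, ← hf0] at h1
    omega
  have hkodd : Nat.card (AddSubgroup.zmultiples d) % 2 = 1 := by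
    rw [← hf0]
    exact h92
  have hk : Nat.card (AddSubgroup.zmultiples d) ≤ κ := by
    rcases hH.dc (AddSubgroup.zmultiples d) δ hKb hδδ (by rw [hfδ, hf0]; omega) with h | ⟨-, h⟩
    · exact h
    · exfalso
      have h3 : addOrderOf d = 2 := by
        have : Fact (Nat.Prime 2) := ⟨Nat.prime_two⟩
        exact addOrderOf_eq_prime (by rw [two_nsmul]; exact h d (AddSubgroup.mem_zmultiples d)) hd
      rw [Nat.card_zmultiples, h3] at hkodd
      omega
  have hκ : κ = 4 := by
    rcases hH.kl with h | h
    · exact h.1
    · have := h.1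
      omega
  have hk3 : Nat.card (AddSubgroup.zmultiples d) = 3 := by omega
  intro i hi
  have hfi := B3_full hFr D (AddSubgroup.zmultiples d) γ h0 hγim hγim' hf0 hfull i
  obtain ⟨him, -, -, h4, -, -⟩ := hFr G D (AddSubgroup.zmultiples d)
  have hrow : ∀ η ∈ im (it D i) (AddSubgroup.zmultiples d),
      1 ≤ (rq (it D i) (AddSubgroup.zmultiples d) η).card := by
    intro η hη
    obtain ⟨-, -, -, -, h5', -⟩ := hRw G (it D i) (AddSubgroup.zmultiples d)
    exact (h5' η).1 hη
  have hst := h4 (it D i) {i • γ, -(i • γ)} 2 (by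
    intro η hη hX
    rcases hfi η hη with h | h | h
    · exact h
    · exact absurd (by rw [h]; simp) hX
    · exact absurd (by rw [h]; simp) hX) (by
    intro η hη
    have h1 : 1 ≤ (rq (it D i) (AddSubgroup.zmultiples d) η).card := by
      apply hrow
      rcases Finset.mem_insert.1 hη with h | h
      · rw [h]
        exact B3_mul D _ γ hγim him i
      · rw [Finset.mem_singleton.1 h, ← smul_neg]
        exact B3_mul D _ (-γ) hγim' him i
    omega)
  have hX2 : ({i • γ, -(i • γ)} : Finset (G ⧸ AddSubgroup.zmultiples d)).card ≤ 2 :=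
    Finset.card_le_two
  have hst' : (st (it D i) (AddSubgroup.zmultiples d)).card ≤ (it D i).card + 4 := by
    have := Nat.mul_le_mul_right 2 hX2
    omega
  have hfin := hPk G D (AddSubgroup.zmultiples d) i 4 h0 hN hKb (by omega) hst'
  rcases hfin with h | h
  · left
    rw [hκ]
    exact h
  · right
    left
    rw [hH.cd, hk3] at h
    have e1 : 2 * l + 1 + 1 = 2 * l + 2 := by omega
    rw [e1] at h
    omega

end Pool.Agent.KAU
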