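import Pool.Agent.KAU.St

/-!
# KAU, block C2: three-element 2-atoms, no full row
-/

set_option autoImplicit false

noncomputable section

open Finset Pool.Agent.Helper64.Rho Pool.Agent.SDG Pool.Agent.MDR Pool.Agent.SSE Pool.Agent.KAT
open scoped Classical Pointwise

namespace Pool.Agent.KAU

private theorem C2_core (hRw : St_Rw) {G : Type} [AddCommGroup G] [Finite G] (κ l : ℕ)
    (D : Finset G) (K : AddSubgroup G) (a b : G) (hH : Hyq κ l D) (hNK : NK1 D) (ha : a ∈ K)
    (haK : K ≠ ⊥) (hKt : K ≠ ⊤) (hgen : ∀ γ : G ⧸ K, ∃ j : ℕ, γ = j • (QuotientAddGroup.mk b : G ⧸ K))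
    (t1 : lam D a = 3) (t2 : ∀ x ∈ D, x + b ∈ D ∨ x + b - a ∈ D)
    (hSg : ∀ γ : G ⧸ K, (tq D K a γ).card = 0 → (rq D K γ).card = 0 ∨
      (rq D K γ).card = Nat.card K) (hK2 : (∀ x ∈ K, x + x = 0) → Nat.card K ≤ 4) :
    (∀ γ : G ⧸ K, 1 ≤ (rq D K γ).card) ∧ (∀ γ : G ⧸ K, 1 ≤ (tq D K a γ).card) ∧
      (∀ γ : G ⧸ K, (rq D K γ).card + 1 ≤ Nat.card K) ∧ (K.index = 2 ∨ K.index = 3) := by
  obtain ⟨r1, r2, r3, r4, r5, r6, r7, r8, r9, r10⟩ := hRw G D K
  obtain ⟨sy0, syn, sy2⟩ := hH.sy
  obtain ⟨β, hβ⟩ : ∃ β : G ⧸ K, β = QuotientAddGroup.mk b := ⟨_, rfl⟩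
  rw [← hβ] at hgen
  obtain ⟨r, hr⟩ : ∃ r : ℕ, r = Nat.card K := ⟨_, rfl⟩
  obtain ⟨W, hW⟩ : ∃ W : G ⧸ K → ℕ, ∀ γ, W γ = (rq D K γ).card := ⟨_, fun _ => rfl⟩
  obtain ⟨T, hT⟩ : ∃ T : G ⧸ K → ℕ, ∀ γ, T γ = (tq D K a γ).card := ⟨_, fun _ => rfl⟩
  have hma : (QuotientAddGroup.mk a : G ⧸ K) = 0 := (QuotientAddGroup.eq_zero_iff a).2 ha
  -- all rows are met
  have hmem : ∀ j : ℕ, j • β ∈ im D K := by
    intro j
    induction j with
    | zero =>
      rw [zero_smul]
      exact mem_image.2 ⟨0, sy0, rfl⟩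
    | succ j ih =>
      obtain ⟨x, hx, hxe⟩ := mem_image.1 ih
      rcases t2 x hx with h | h
      · refine mem_image.2 ⟨x + b, h, ?_⟩
        rw [QuotientAddGroup.mk_add, hxe, ← hβ, succ_nsmul]
      · refine mem_image.2 ⟨x + b - a, h, ?_⟩
        rw [QuotientAddGroup.mk_sub, QuotientAddGroup.mk_add, hxe, ← hβ, hma, sub_zero, succ_nsmul]
  have hU : ∀ γ : G ⧸ K, γ ∈ im D K := by
    intro γ
    obtain ⟨j, rfl⟩ := hgen γ
    exact hmem j
  have hW1 : ∀ γ, 1 ≤ W γ := by
    intro γ
    rw [hW]
    exact (r5 γ).1 (hU γ)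
  have hWr : ∀ γ, W γ ≤ r := by
    intro γ
    rw [hW, hr]
    exact r3 γ
  have hcard : (im D K).card = K.index := by
    have hft : Fintype (G ⧸ K) := Fintype.ofFinite _
    have h1 : im D K = univ := by
      rw [eq_univ_iff_forall]
      exact hU
    rw [h1, card_univ, ← Nat.card_eq_fintype_card]
    rfl
  obtain ⟨s, hs⟩ : ∃ s : ℕ, s = K.index := ⟨_, rfl⟩
  rw [← hs] at hcard
  have hn : r * s = Nat.card G := by
    rw [hr, hs]
    exact K.card_mul_index
  have hr2 : 2 ≤ r := by
    rw [hr]
    have h1 : 1 < Nat.card K := by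
      rw [← AddSubgroup.one_lt_card_iff_ne_bot] at haK
      exact haK
    exact h1
  have hs2 : 2 ≤ s := by
    rw [hs]
    have h1 : K.index ≠ 1 := fun h => hKt (AddSubgroup.index_eq_one.1 h)
    have h2 : K.index ≠ 0 := AddSubgroup.index_ne_zero_of_finite
    omega
  have hsumW : ∑ γ ∈ im D K, W γ = D.card := by
    rw [r2]
    exact sum_congr rfl fun γ _ => hW γ
  have hsumT : ∑ γ ∈ im D K, T γ = 3 := by
    rw [← t1, r4 a]
    exact sum_congr rfl fun γ _ => hT γ
  have hTW : ∀ γ, T γ = 0 → W γ = r := by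
    intro γ h
    rw [hT] at h
    have h1 := hSg γ h
    have h2 := hW1 γ
    rw [hW] at h2
    rw [hW, hr]
    omega
  have hD2 : 2 * D.card ≤ r * s + 1 := by
    rw [hn, hH.cd]
    have := hH.nG
    omega
  -- the index is at most five
  have hs5 : s ≤ 5 := by
    have h1 : ∀ γ ∈ im D K, r ≤ W γ + (r - 1) * T γ := by
      intro γ _
      by_cases h : T γ = 0
      · rw [hTW γ h]
        omega
      · have h2 : 1 ≤ T γ := Nat.one_le_iff_ne_zero.2 h
        have h3 : (r - 1) * 1 ≤ (r - 1) * T γ := Nat.mul_le_mul_left _ h2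
        have h4 := hW1 γ
        omega
    have h2 := sum_le_sum h1
    rw [sum_const, smul_eq_mul, hcard, sum_add_distrib, ← mul_sum, hsumW, hsumT] at h2
    by_contra hcon
    have h3 : 6 ≤ s := by omega
    have h4 : 6 * r ≤ s * r := Nat.mul_le_mul_right r h3
    have h5 : r * s = s * r := Nat.mul_comm _ _
    omega
  have hE : ∀ δ : G ⧸ K, δ + δ ≠ 0 → ¬ (2 * r + 1 ≤ 2 * W δ + W 0) := by
    intro δ hδ h
    rw [hW, hW, hr] at h
    have h0 := hH.dc K δ haK hδ h
    have h1 : r ≤ κ := by
      rcases h0 with h0 | ⟨h0, h0'⟩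
      · rw [hr]
        exact h0
      · rw [hr, h0]
        exact hK2 h0'
    rcases hH.kl with ⟨h2, h3⟩ | ⟨h2, -, -⟩
    · rw [h2] at h1
      have h4 : r * s ≤ 4 * 5 := Nat.mul_le_mul h1 hs5
      have h5 := hH.nG
      omega
    · omega
  have hE' : ∀ δ : G ⧸ K, δ + δ ≠ 0 → 1 ≤ T δ := by
    intro δ hδ
    by_contra hcon
    have h1 : T δ = 0 := by omega
    have h2 := hTW δ h1
    apply hE δ hδ
    have h3 := hW1 0
    omega
  have hsub : ∀ (S : Finset (G ⧸ K)) (f : G ⧸ K → ℕ), ∑ γ ∈ S, f γ ≤ ∑ γ ∈ im D K, f γ :=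
    fun S f => sum_le_sum_of_subset fun γ _ => hU γ
  -- no full row
  have hfull : ∀ ρ, W ρ ≠ r := by
    intro ρ hρ
    have hρ2 : ρ + ρ = 0 := by
      by_contra hcon
      apply hE ρ hcon
      have h3 := hW1 0
      omega
    have hnk := hNK K haK hKt
    rw [r1, hcard, ← hr] at hnk
    have hs3 : 3 ≤ s := by
      by_contra hcon
      have hs' : s = 2 := by omega
      have h1 : ∑ γ ∈ (im D K).erase ρ, 1 ≤ ∑ γ ∈ (im D K).erase ρ, W γ :=
        sum_le_sum fun γ _ => hW1 γ
      rw [sum_const, smul_eq_mul, mul_one, card_erase_of_mem (hU ρ), hcard] at h1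
      have h2 := add_sum_erase (im D K) W (hU ρ)
      rw [hsumW, hρ] at h2
      rw [hs'] at hnk h1
      omega
    have hββ : β + β ≠ 0 := by
      intro h
      have h1 : im D K ⊆ {0, β} := by
        intro γ _
        obtain ⟨j, rfl⟩ := hgen γ
        have h2 : 2 • β = 0 := by rw [two_nsmul, h]
        have h3 : j • β = (j % 2) • β := by
          conv_lhs => rw [← Nat.div_add_mod j 2, add_nsmul, mul_comm, mul_nsmul', h2, nsmul_zero, zero_add]
        rw [h3]
        have h4 : j % 2 = 0 ∨ j % 2 = 1 := by omega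
        rcases h4 with h4 | h4
        · rw [h4, zero_smul]
          exact mem_insert_self _ _
        · rw [h4, one_smul]
          exact mem_insert_of_mem (mem_singleton_self _)
      have h2 := (card_le_card h1).trans card_le_two
      omega
    have hneg : -ρ = ρ := by
      rw [neg_eq_iff_add_eq_zero]
      exact hρ2
    have e1 : (ρ + β) + (ρ + β) = β + β := by
      calc (ρ + β) + (ρ + β) = (ρ + ρ) + (β + β) := by abel
        _ = β + β := by rw [hρ2, zero_add]
    have e2 : (ρ - β) + (ρ - β) = -(β + β) := by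
      calc (ρ - β) + (ρ - β) = (ρ + ρ) - (β + β) := by abel
        _ = -(β + β) := by rw [hρ2, zero_sub]
    have e3 : -(ρ + β) = ρ - β := by
      rw [neg_add, hneg]
      abel
    have n1 : (ρ + β) + (ρ + β) ≠ 0 := by rw [e1]; exact hββ
    have n2 : (ρ - β) + (ρ - β) ≠ 0 := by rw [e2]; exact neg_ne_zero.2 hββ
    have n3 : ρ + β ≠ ρ - β := by
      intro h
      apply hββ
      have : β = -β := by
        have h4 : ρ + β = ρ + -β := by rw [h]; abel
        exact add_left_cancel h4
      calc β + β = -β + β := by rw [← this]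
        _ = 0 := by abel
    have hTT : T (ρ - β) = T (ρ + β) := by
      rw [hT, hT, ← e3]
      exact r7 syn a ha (ρ + β)
    have hWW : W (ρ - β) = W (ρ + β) := by
      rw [hW, hW, ← e3]
      exact r6 syn (ρ + β)
    have hT1 := hE' _ n1
    have hTone : T (ρ + β) = 1 := by
      have h1 := hsub {ρ + β, ρ - β} T
      rw [sum_pair n3, hsumT, hTT] at h1
      omega
    -- the row `ρ + β`
    have hWb : r ≤ W (ρ + β) + 1 := by
      have hfG : Fintype G := Fintype.ofFinite _
      have hC : (rq (univ : Finset G) K (ρ + β)).card = Nat.card K := by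
        obtain ⟨-, -, -, -, -, -, -, q8, -, -⟩ := hRw G (univ : Finset G) K
        exact (q8 (ρ + β)).2 fun x _ => mem_univ x
      have hsubs : rq (univ : Finset G) K (ρ + β) ⊆
          rq D K (ρ + β) ∪ (tq D K a (ρ + β)).image fun x => x + a := by
        intro y hy
        unfold rq at hy
        rw [mem_filter] at hy
        have hy1 := hy.2
        rw [mem_union]
        by_cases hyD : y ∈ D
        · left
          unfold rq
          rw [mem_filter]
          exact ⟨hyD, hy1⟩
        · right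
          have hρ' : (rq D K ρ).card = Nat.card K := by
            rw [← hW, ← hr]
            exact hρ
          have h1 : y - b ∈ D := by
            refine (r8 ρ).1 hρ' (y - b) ?_
            rw [QuotientAddGroup.mk_sub, hy1, ← hβ]
            abel
          have h2 : y - a ∈ D := by
            rcases t2 _ h1 with h | h
            · rw [sub_add_cancel] at h
              exact absurd h hyD
            · rwa [sub_add_cancel] at h
          refine mem_image.2 ⟨y - a, ?_, sub_add_cancel y a⟩
          unfold tq rq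
          rw [mem_filter, mem_filter]
          refine ⟨⟨h2, ?_⟩, ?_⟩
          · rw [QuotientAddGroup.mk_sub, hy1, hma, sub_zero]
          · rw [sub_add_cancel]
            exact hyD
      have h1 := card_le_card hsubs
      have h2 := card_union_le (rq D K (ρ + β)) ((tq D K a (ρ + β)).image fun x => x + a)
      have h3 : ((tq D K a (ρ + β)).image fun x => x + a).card ≤ (tq D K a (ρ + β)).card :=
        card_image_le
      rw [hC] at h1
      rw [← hT, hTone] at h3
      rw [← hW] at h2
      rw [hr]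
      omega
    have hW0 : W 0 = 1 := by
      have h1 := hE _ n1
      have h2 : W 0 % 2 = 1 := by
        rw [hW]
        exact (r9 hH.sy).2
      omega
    have hρ0 : ρ ≠ 0 := by
      intro h
      rw [h, hW0] at hρ
      omega
    have hT0 : 1 ≤ T 0 := by
      by_contra hcon
      have h1 : T 0 = 0 := by omega
      have h2 := hTW 0 h1
      omega
    have m1 : (0 : G ⧸ K) ≠ ρ + β := by
      intro h
      apply n1
      rw [← h, add_zero]
    have m2 : (0 : G ⧸ K) ≠ ρ - β := by
      intro h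
      apply n2
      rw [← h, add_zero]
    have hβ0 : β ≠ 0 := by
      intro h
      apply hββ
      rw [h, add_zero]
    have hβρ : β = ρ - β := by
      by_contra hcon
      have h1 := hE' β hββ
      have m3 : (0 : G ⧸ K) ≠ β := hβ0.symm
      have m4 : ρ + β ≠ β := by
        intro h
        apply hρ0
        have h4 : ρ + β = 0 + β := by rw [h, zero_add]
        exact add_right_cancel h4
      have m5 : ρ - β ≠ β := fun h => hcon h.symm
      have h2 := hsub {0, ρ + β, ρ - β, β} T
      rw [sum_insert (by simp [m1, m2, m3]), sum_insert (by simp [n3, m4]),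
        sum_insert (by simp [m5]), sum_singleton, hsumT, hTT, hTone] at h2
      omega
    have hρe : ρ = β + β := by
      calc ρ = (ρ - β) + β := by abel
        _ = β + β := by rw [← hβρ]
    have h4β : 4 • β = 0 := by
      calc 4 • β = (β + β) + (β + β) := by abel
        _ = 0 := by rw [← hρe, hρ2]
    have hs4 : s ≤ 4 := by
      have h1 : im D K ⊆ ((range 4).image fun j => j • β) := by
        intro γ _
        obtain ⟨j, rfl⟩ := hgen γ
        have h3 : j • β = (j % 4) • β := by
          conv_lhs => rw [← Nat.div_add_mod j 4, add_nsmul, mul_comm, mul_nsmul', h4β, nsmul_zero, zero_add]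
        rw [h3]
        exact mem_image.2 ⟨j % 4, mem_range.2 (Nat.mod_lt _ (by norm_num)), rfl⟩
      have h2 := (card_le_card h1).trans card_image_le
      rw [hcard, card_range] at h2
      exact h2
    have k1 : ρ ≠ ρ + β := by
      intro h
      apply hβ0
      have h4 : ρ + 0 = ρ + β := by rw [← h, add_zero]
      exact (add_left_cancel h4).symm
    have k2 : ρ ≠ ρ - β := by
      intro h
      apply hβ0
      have h4 : ρ + 0 = ρ + -β := by
        rw [add_zero]
        calc ρ = ρ - β := h
          _ = ρ + -β := by abel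
      exact neg_eq_zero.1 (add_left_cancel h4).symm
    have h2 := hsub {0, ρ, ρ + β, ρ - β} W
    rw [sum_insert (by simp [m1, m2, hρ0.symm]), sum_insert (by simp [k1, k2]),
      sum_insert (by simp [n3]), sum_singleton, hsumW, hWW, hW0, hρ] at h2
    have h3 : r * s ≤ r * 4 := Nat.mul_le_mul_left r hs4
    omega
  have hTpos : ∀ γ, 1 ≤ T γ := by
    intro γ
    by_contra hcon
    exact hfull γ (hTW γ (by omega))
  refine ⟨fun γ => ?_, fun γ => ?_, fun γ => ?_, ?_⟩
  · rw [← hW]
    exact hW1 γ
  · rw [← hT]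
    exact hTpos γ
  · rw [← hW, ← hr]
    have h1 := hWr γ
    have h2 := hfull γ
    omega
  · have h1 : ∑ γ ∈ im D K, 1 ≤ ∑ γ ∈ im D K, T γ := sum_le_sum fun γ _ => hTpos γ
    rw [sum_const, smul_eq_mul, mul_one, hcard, hsumT] at h1
    rw [← hs]
    omega

theorem thm_C2q : St_Rw → Pool.Agent.KAT.St_Sg → St_C2q := by
  intro hRw hSg G _ _ κ l D a b hH hNK hT hcl
  obtain ⟨t1, t2, -, ha0, -, -⟩ := hT
  refine C2_core hRw κ l D (AddSubgroup.zmultiples a) a b hH hNK
    (AddSubgroup.mem_zmultiples a) ?_ ?_ ?_ t1 t2 (fun γ => (hSg G D a γ).1) ?_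
  · intro h
    exact ha0 (AddSubgroup.zmultiples_eq_bot.1 h)
  · intro h
    apply hH.nc
    refine ⟨a, fun x => ?_⟩
    have hx : x ∈ AddSubgroup.zmultiples a := by
      rw [h]
      exact AddSubgroup.mem_top x
    exact hx
  · intro γ
    obtain ⟨x, rfl⟩ := QuotientAddGroup.mk_surjective γ
    have h1 : (QuotientAddGroup.mk x : G ⧸ AddSubgroup.zmultiples a) ∈
        AddSubgroup.zmultiples (QuotientAddGroup.mk b : G ⧸ AddSubgroup.zmultiples a) := by
      have hx : x ∈ AddSubgroup.closure ({a, b} : Set G) := by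
        rw [hcl]
        exact AddSubgroup.mem_top x
      have hle : AddSubgroup.closure ({a, b} : Set G) ≤
          (AddSubgroup.zmultiples (QuotientAddGroup.mk b : G ⧸ AddSubgroup.zmultiples a)).comap
            (QuotientAddGroup.mk' (AddSubgroup.zmultiples a)) := by
        rw [AddSubgroup.closure_le]
        intro y hy
        rcases hy with hy | hy
        · have e : y = a := hy
          rw [e]
          show (QuotientAddGroup.mk a : G ⧸ AddSubgroup.zmultiples a) ∈
            AddSubgroup.zmultiples (QuotientAddGroup.mk b : G ⧸ AddSubgroup.zmultiples a)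
          rw [(QuotientAddGroup.eq_zero_iff a).2 (AddSubgroup.mem_zmultiples a)]
          exact AddSubgroup.zero_mem _
        · have e : y = b := hy
          rw [e]
          exact AddSubgroup.mem_zmultiples _
      exact hle hx
    rw [← mem_multiples_iff_mem_zmultiples] at h1
    obtain ⟨j, hj⟩ := h1
    exact ⟨j, hj.symm⟩
  · intro h
    have h2 := h a (AddSubgroup.mem_zmultiples a)
    have h3 : addOrderOf a = 2 := by
      have : Fact (Nat.Prime 2) := ⟨Nat.prime_two⟩
      exact addOrderOf_eq_prime (by rw [two_nsmul]; exact h2) ha0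
    rw [Nat.card_zmultiples, h3]
    omega

end Pool.Agent.KAU
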