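import Pool.Agent.KAU.St

/-!
# KAT C3: three-element 2-atoms, index 3 is impossible (helper86)
-/

set_option autoImplicit false

noncomputable section

open Finset Pool.Agent.Helper64.Rho Pool.Agent.SDG Pool.Agent.MDR Pool.Agent.SSE Pool.Agent.KAT
open scoped Classical Pointwise

namespace Pool.Agent.KAU

private lemma C3_mem_rq {G : Type} [AddCommGroup G] {D : Finset G} {K : AddSubgroup G} {γ : G ⧸ K} {x : G} :
    x ∈ rq D K γ ↔ x ∈ D ∧ (QuotientAddGroup.mk x : G ⧸ K) = γ := by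
  unfold rq
  rw [mem_filter]

/-- an interval inside an interval -/
private lemma C3_iv {G : Type} [AddCommGroup G] [Finite G] {a u c : G} {p q : ℕ} (hq : q + 2 ≤ addOrderOf a)
    (h : ∀ j, j ≤ p → ∃ i, i ≤ q ∧ u - j • a = c - i • a) : ∃ i, i + p ≤ q ∧ u = c - i • a := by
  obtain ⟨i0, hi0, h0⟩ := h 0 (Nat.zero_le _)
  rw [zero_smul, sub_zero] at h0
  refine ⟨i0, ?_, h0⟩
  by_contra hc
  obtain ⟨i, hi, h1⟩ := h (q + 1 - i0) (by omega)
  have h2 : (q + 1) • a = i • a := by
    rw [h0, sub_sub, ← add_nsmul, show i0 + (q + 1 - i0) = q + 1 by omega] at h1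
    exact sub_right_inj.1 h1
  have h3 := nsmul_inj_mod.1 h2
  rw [Nat.mod_eq_of_lt (by omega), Nat.mod_eq_of_lt (by omega)] at h3
  omega

/-- a step into a string -/
private lemma C3_step {G : Type} [AddCommGroup G] {D : Finset G} {a b x : G} {K : AddSubgroup G} {γ : G ⧸ K} {L : ℕ}
    (haK : (QuotientAddGroup.mk a : G ⧸ K) = 0)
    (hst : ∀ y : G, y ∈ rq D K γ ↔ ∃ j : ℕ, j < L ∧ y = x - j • a)
    (hD : ∀ x ∈ D, x + b ∈ D ∨ x + b - a ∈ D) {y : G} (hy : y ∈ D)
    (hyb : (QuotientAddGroup.mk (y + b) : G ⧸ K) = γ) : ∃ i, i ≤ L ∧ y + b = (x + a) - i • a := by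
  rcases hD y hy with h | h
  · obtain ⟨j, hj, h1⟩ := (hst _).1 (C3_mem_rq.2 ⟨h, hyb⟩)
    refine ⟨j + 1, by omega, ?_⟩
    rw [h1, succ_nsmul]
    abel
  · have h2 : (QuotientAddGroup.mk (y + b - a) : G ⧸ K) = γ := by
      rw [QuotientAddGroup.mk_sub, hyb, haK, sub_zero]
    obtain ⟨j, hj, h1⟩ := (hst _).1 (C3_mem_rq.2 ⟨h, h2⟩)
    refine ⟨j, by omega, ?_⟩
    rw [sub_eq_iff_eq_add.1 h1]
    abel

private lemma C3_cyc {G : Type} [AddCommGroup G] {a b g : G} (hcl : AddSubgroup.closure {a, b} = ⊤)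
    (ha : a ∈ AddSubgroup.zmultiples g) (hb : b ∈ AddSubgroup.zmultiples g) : IsAddCyclic G := by
  have h1 : AddSubgroup.closure {a, b} ≤ AddSubgroup.zmultiples g := by
    rw [AddSubgroup.closure_le]
    intro y hy
    rcases hy with h | h
    · rw [h]; exact ha
    · rw [Set.mem_singleton_iff.1 h]; exact hb
  rw [hcl] at h1
  exact ⟨⟨g, fun y => h1 (AddSubgroup.mem_top y)⟩⟩

theorem thm_C3q : St_Rw → Pool.Agent.KAT.St_Sg → St_C3q := by
  intro hRw hSg G _ _ κ l D a b hH hNK hT hcl hw1 ht1 hwr hidx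
  obtain ⟨hla, hDb, hl3, ha0, hb0, hab⟩ := hT
  obtain ⟨h0D, hsymm, -⟩ := hH.sy
  set K := AddSubgroup.zmultiples a with hK
  obtain ⟨-, hcard, -, hlam, him, hrneg, htneg, -, -, -⟩ := hRw G D K
  have haK : (QuotientAddGroup.mk a : G ⧸ K) = 0 :=
    (QuotientAddGroup.eq_zero_iff a).2 (AddSubgroup.mem_zmultiples a)
  set β : G ⧸ K := QuotientAddGroup.mk b with hβ
  have hr : Nat.card K = addOrderOf a := Nat.card_zmultiples a
  set r := addOrderOf a with hrdef
  have hn : Nat.card G = 3 * r := by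
    rw [← hidx, ← hr, mul_comm, AddSubgroup.card_mul_index]
  have hr2 : 2 ≤ r := by
    have h1 : addOrderOf a ≠ 1 := fun h => ha0 (AddMonoid.addOrderOf_eq_one_iff.1 h)
    have h2 : 0 < addOrderOf a := addOrderOf_pos a
    omega
  -- the quotient
  have hcq : Nat.card (G ⧸ K) = 3 := hidx
  have h3 : ∀ γ : G ⧸ K, (3 : ℕ) • γ = 0 := fun γ => by rw [← hcq]; exact card_nsmul_eq_zero'
  have hβ0 : β ≠ 0 := by
    intro h
    have hbK : b ∈ K := (QuotientAddGroup.eq_zero_iff b).1 h
    have h1 := C3_cyc hcl (AddSubgroup.mem_zmultiples a) hbK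
    exact hH.nc h1
  have hββ : β + β = -β := by
    have h1 := h3 β
    have h2 : (3 : ℕ) • β = β + β + β := by
      rw [show (3 : ℕ) = 2 + 1 from rfl, add_nsmul, two_nsmul, one_nsmul]
    rw [h2] at h1
    exact eq_neg_of_add_eq_zero_left h1
  have hβn : β ≠ -β := by
    intro h
    rw [← hββ] at h
    exact hβ0 (left_eq_add.1 h)
  have hnβ0 : -β ≠ 0 := neg_ne_zero.2 hβ0
  have hall : ∀ γ : G ⧸ K, γ = 0 ∨ γ = β ∨ γ = -β := by
    intro γ
    by_contra hc
    push Not at hc
    have h1 : ({0, β, -β, γ} : Finset (G ⧸ K)).card = 4 := by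
      rw [card_insert_of_notMem, card_insert_of_notMem, card_insert_of_notMem, card_singleton]
      · rw [mem_singleton]; exact fun h => hc.2.2 h.symm
      · rw [mem_insert, mem_singleton]
        rintro (h | h)
        · exact hβn h
        · exact hc.2.1 h.symm
      · rw [mem_insert, mem_insert, mem_singleton]
        rintro (h | h | h)
        · exact hβ0 h.symm
        · exact hnβ0 h.symm
        · exact hc.1 h.symm
    have : Fintype (G ⧸ K) := Fintype.ofFinite _
    have h2 := card_le_univ ({0, β, -β, γ} : Finset (G ⧸ K))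
    rw [← Nat.card_eq_fintype_card, hcq, h1] at h2
    omega
  have himD : im D K = {0, β, -β} := by
    ext γ
    rw [him]
    constructor
    · intro _
      rw [mem_insert, mem_insert, mem_singleton]
      exact hall γ
    · intro _
      exact hw1 γ
  have hsum : ∀ F : G ⧸ K → ℕ, ∑ γ ∈ im D K, F γ = F 0 + F β + F (-β) := by
    intro F
    rw [himD, sum_insert, sum_insert, sum_singleton, add_assoc]
    · rw [mem_singleton]; exact hβn
    · rw [mem_insert, mem_singleton]
      rintro (h | h)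
      · exact hβ0 h.symm
      · exact hnβ0 h.symm
  rw [hsum] at hcard
  have hlam' := hlam a
  rw [hsum, hla] at hlam'
  have t0 := ht1 0
  have t1 := ht1 β
  have t2 := ht1 (-β)
  have ht0 : (tq D K a 0).card = 1 := by omega
  have htβ : (tq D K a β).card = 1 := by omega
  have htnβ : (tq D K a (-β)).card = 1 := by omega
  -- the strings
  obtain ⟨t, hw0', hs00⟩ := (hSg G D a 0).2.2.2 hH.sy ht0 rfl
  obtain ⟨hLr', x, hxβ, hxD, hxa, hsβ'⟩ := (hSg G D a β).2.1 htβ
  obtain ⟨-, x', hx'β, hx'D, hx'a, hsnβ'⟩ := (hSg G D a (-β)).2.1 htnβ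
  have hw0 : (rq D K 0).card = 2 * t + 1 := hw0'
  have hs0 : ∀ y : G, y ∈ rq D K 0 ↔ ∃ j : ℕ, j ≤ t ∧ (y = j • a ∨ y = -(j • a)) := hs00
  have hLr : (rq D K β).card + 1 ≤ Nat.card K := hLr'
  have hsβ : ∀ y : G, y ∈ rq D K β ↔ ∃ j : ℕ, j < (rq D K β).card ∧ y = x - j • a := hsβ'
  have hsnβ : ∀ y : G, y ∈ rq D K (-β) ↔ ∃ j : ℕ, j < (rq D K (-β)).card ∧ y = x' - j • a := hsnβ'
  clear hw0' hs00 hLr' hsβ' hsnβ'
  rw [hrneg hsymm] at hsnβ hcard
  set L := (rq D K β).card with hL
  have hL1 : 1 ≤ L := hw1 β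
  rw [hw0, hH.cd] at hcard
  rw [hr] at hLr
  have hwr0 := hwr 0
  rw [hw0, hr] at hwr0
  have hnG := hH.nG
  have hkl := hH.kl
  rw [hn] at hnG hkl
  have hLr2 : L + 2 ≤ r := by
    rcases hkl with h | h <;> omega
  -- the row 0 as a string
  have hs0' : ∀ y : G, y ∈ rq D K 0 ↔ ∃ j : ℕ, j < 2 * t + 1 ∧ y = t • a - j • a := by
    intro y
    rw [hs0]
    constructor
    · rintro ⟨j, hj, h | h⟩
      · refine ⟨t - j, by omega, ?_⟩
        rw [h, eq_sub_iff_add_eq, ← add_nsmul]
        congr 1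
        omega
      · refine ⟨t + j, by omega, ?_⟩
        rw [h, add_nsmul]
        abel
    · rintro ⟨j, hj, h⟩
      rcases Nat.le_total j t with h1 | h1
      · refine ⟨t - j, by omega, Or.inl ?_⟩
        rw [h, sub_eq_iff_eq_add, ← add_nsmul]
        congr 1
        omega
      · refine ⟨j - t, by omega, Or.inr ?_⟩
        rw [h, eq_comm, neg_eq_iff_eq_neg, neg_sub, eq_sub_iff_add_eq, ← add_nsmul]
        congr 1
        omega
  -- (1)
  have e1 : ∃ i, i + 2 * t ≤ L ∧ t • a + b = (x + a) - i • a := by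
    refine C3_iv hLr2 ?_
    intro j hj
    have hy : t • a - j • a ∈ rq D K 0 := (hs0' _).2 ⟨j, by omega, rfl⟩
    obtain ⟨hy1, hy2⟩ := C3_mem_rq.1 hy
    obtain ⟨i, hi, h⟩ := C3_step haK hsβ hDb hy1 (by rw [QuotientAddGroup.mk_add, hy2, zero_add])
    exact ⟨i, hi, by rw [← h]; abel⟩
  obtain ⟨i1, hi1, e1⟩ := e1
  have ht3 : 2 * t + 3 ≤ r := by
    rcases hkl with h | h <;> omega
  have e2 : ∃ i, i + (L - 1) ≤ L ∧ x + b = (x' + a) - i • a := by
    refine C3_iv hLr2 ?_
    intro j hj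
    have hy : x - j • a ∈ rq D K β := (hsβ _).2 ⟨j, by omega, rfl⟩
    obtain ⟨hy1, hy2⟩ := C3_mem_rq.1 hy
    obtain ⟨i, hi, h⟩ := C3_step haK hsnβ hDb hy1 (by rw [QuotientAddGroup.mk_add, hy2]; exact hββ)
    exact ⟨i, hi, by rw [← h]; abel⟩
  obtain ⟨i2, hi2, e2⟩ := e2
  have e3 : ∃ i, i + (L - 1) ≤ 2 * t + 1 ∧ x' + b = (t • a + a) - i • a := by
    refine C3_iv (by omega) ?_
    intro j hj
    have hy : x' - j • a ∈ rq D K (-β) := (hsnβ _).2 ⟨j, by omega, rfl⟩
    obtain ⟨hy1, hy2⟩ := C3_mem_rq.1 hy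
    obtain ⟨i, hi, h⟩ := C3_step haK hs0' hDb hy1 (by
      rw [QuotientAddGroup.mk_add, hy2]; exact neg_add_cancel β)
    exact ⟨i, hi, by rw [← h]; abel⟩
  obtain ⟨i3, hi3, e3⟩ := e3
  -- the symmetric top
  have ex' : x' = (L - 1) • a - x := by
    have h1 : x - (L - 1) • a ∈ rq D K β := (hsβ _).2 ⟨L - 1, by omega, rfl⟩
    obtain ⟨h2, h3'⟩ := C3_mem_rq.1 h1
    have h4 : -(x - (L - 1) • a) ∈ rq D K (-β) := by
      refine C3_mem_rq.2 ⟨hsymm _ h2, ?_⟩
      rw [QuotientAddGroup.mk_neg, h3']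
    obtain ⟨j, hj, h5⟩ := (hsnβ _).1 h4
    rcases Nat.eq_zero_or_pos j with h6 | h6
    · rw [h6, zero_smul, sub_zero] at h5
      rw [← h5]; abel
    · exfalso
      obtain ⟨j', rfl⟩ : ∃ j', j = j' + 1 := ⟨j - 1, by omega⟩
      have h7 : x' - j' • a ∈ rq D K (-β) := (hsnβ _).2 ⟨j', by omega, rfl⟩
      have h8 := hsymm _ (C3_mem_rq.1 h7).1
      have h9 : -(x' - j' • a) = x - L • a := by
        have h10 : x' - j' • a = -(x - (L - 1) • a) + a := by
          rw [h5, succ_nsmul]; abel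
        rw [h10]
        obtain ⟨L', hL'⟩ : ∃ L', L = L' + 1 := ⟨L - 1, by omega⟩
        rw [hL', Nat.add_sub_cancel, succ_nsmul]
        abel
      rw [h9] at h8
      have h11 : x - L • a ∈ rq D K β := by
        refine C3_mem_rq.2 ⟨h8, ?_⟩
        have h12 : (QuotientAddGroup.mk (L • a) : G ⧸ K) = 0 :=
          (QuotientAddGroup.eq_zero_iff _).2 (AddSubgroup.nsmul_mem_zmultiples a L)
        rw [QuotientAddGroup.mk_sub, hxβ, h12, sub_zero]
      obtain ⟨j, hj, h12⟩ := (hsβ _).1 h11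
      have h13 := nsmul_inj_mod.1 (sub_right_inj.1 h12)
      rw [Nat.mod_eq_of_lt (by omega), Nat.mod_eq_of_lt (by omega)] at h13
      omega
  -- the sum of the three equations
  have hsum3 : b + b + b + (i1 + i2 + i3) • a = a + a + a := by
    rw [add_nsmul, add_nsmul]
    have f1 : i1 • a = x + a - (t • a + b) := by rw [e1]; abel
    have f2 : i2 • a = x' + a - (x + b) := by rw [e2]; abel
    have f3 : i3 • a = t • a + a - (x' + b) := by rw [e3]; abel
    rw [f1, f2, f3]
    abel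
  -- the two periodic cases
  have hfin : ∀ g : G, g ≠ 0 → (QuotientAddGroup.mk g : G ⧸ K) = β → g + g + g = 0 → x = g + t • a → x' = x + g →
      False := by
    intro g hg0 hgβ hg3 hxg hx'g
    have hz : ((2 * (t : ℤ) + 1) - (L : ℤ)) • a = 0 := by
      have h1 : x + g = (L - 1) • a - x := by rw [← hx'g, ex']
      have h2 : x + x + g = (L - 1) • a := by
        rw [eq_sub_iff_add_eq] at h1
        rw [← h1]; abel
      rw [hxg] at h2
      have h3' : (L - 1) • a = t • a + t • a := by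
        rw [← h2]
        have : g + t • a + (g + t • a) + g = (g + g + g) + (t • a + t • a) := by abel
        rw [this, hg3, zero_add]
      have h4 : L • a = t • a + t • a + a := by
        rw [← h3', ← succ_nsmul, show L - 1 + 1 = L by omega]
      rw [sub_smul, add_smul, mul_smul, one_smul, natCast_zsmul, natCast_zsmul, h4]
      rw [show (2 : ℤ) • (t • a) = t • a + t • a from two_zsmul _]
      abel
    have hdvd : (r : ℤ) ∣ (2 * (t : ℤ) + 1) - (L : ℤ) := (addOrderOf_dvd_iff_zsmul_eq_zero).2 hz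
    have hL2 : (2 * (t : ℤ) + 1) - (L : ℤ) = 0 := by
      refine Int.eq_zero_of_abs_lt_dvd hdvd ?_
      rw [abs_lt]
      constructor <;> omega
    have hLt : L = 2 * t + 1 := by omega
    have h0 : lam D g = 0 := by
      unfold lam
      rw [card_eq_zero, filter_eq_empty_iff]
      intro y hy
      rw [not_not]
      have hyr : ∀ γ : G ⧸ K, (QuotientAddGroup.mk y : G ⧸ K) = γ → y ∈ rq D K γ := fun γ h => C3_mem_rq.2 ⟨hy, h⟩
      rcases hall (QuotientAddGroup.mk y) with h | h | h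
      · obtain ⟨j, hj, h1⟩ := (hs0' y).1 (hyr _ h)
        have h2 : y + g ∈ rq D K β := (hsβ _).2 ⟨j, by omega, by rw [h1, hxg]; abel⟩
        exact (C3_mem_rq.1 h2).1
      · obtain ⟨j, hj, h1⟩ := (hsβ y).1 (hyr _ h)
        have h2 : y + g ∈ rq D K (-β) := (hsnβ _).2 ⟨j, by omega, by rw [h1, hx'g]; abel⟩
        exact (C3_mem_rq.1 h2).1
      · obtain ⟨j, hj, h1⟩ := (hsnβ y).1 (hyr _ h)
        have h2 : y + g ∈ rq D K 0 := (hs0' _).2 ⟨j, by omega, by
          rw [h1, hx'g, hxg]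
          have : g + t • a + g - j • a + g = (g + g + g) + (t • a - j • a) := by abel
          rw [this, hg3, zero_add]⟩
        exact (C3_mem_rq.1 h2).1
    have := hl3 g hg0
    omega
  have hI : i1 + i2 + i3 ≤ 3 := by omega
  have hcase : i1 + i2 + i3 = 0 ∨ i1 + i2 + i3 = 1 ∨ i1 + i2 + i3 = 2 ∨ i1 + i2 + i3 = 3 := by omega
  rcases hcase with h | h | h | h
  · -- 0
    have z1 : i1 = 0 := by omega
    have z2 : i2 = 0 := by omega
    rw [h, zero_smul, add_zero] at hsum3
    rw [z1, zero_smul, sub_zero] at e1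
    rw [z2, zero_smul, sub_zero] at e2
    refine hfin (b - a) (sub_ne_zero.2 (Ne.symm hab)) ?_ ?_ ?_ ?_
    · rw [QuotientAddGroup.mk_sub, haK, sub_zero]
    · have : b - a + (b - a) + (b - a) = (b + b + b) - (a + a + a) := by abel
      rw [this, hsum3, sub_self]
    · rw [← sub_eq_iff_eq_add] at e1
      rw [← e1]; abel
    · have : x' = x + b - a := by rw [e2]; abel
      rw [this]; abel
  · -- 1
    rw [h, one_smul] at hsum3
    have h4 : a ∈ AddSubgroup.zmultiples (a - b) := by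
      refine AddSubgroup.mem_zmultiples_iff.2 ⟨3, ?_⟩
      have h5 : (3 : ℤ) • (a - b) = a + a + a - (b + b + b) := by
        rw [show (3 : ℤ) = 1 + 1 + 1 from rfl, add_smul, add_smul, one_smul]; abel
      rw [h5, ← hsum3]; abel
    refine hH.nc (C3_cyc hcl h4 ?_)
    have h5 := AddSubgroup.sub_mem _ h4 (AddSubgroup.mem_zmultiples (a - b))
    rwa [sub_sub_cancel] at h5
  · -- 2
    rw [h, two_nsmul] at hsum3
    have h4 : a ∈ AddSubgroup.zmultiples b := by
      refine AddSubgroup.mem_zmultiples_iff.2 ⟨3, ?_⟩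
      have h5 : (3 : ℤ) • b = b + b + b := by
        rw [show (3 : ℤ) = 1 + 1 + 1 from rfl, add_smul, add_smul, one_smul]
      rw [h5]
      have h6 : b + b + b + (a + a) = a + (a + a) := by rw [hsum3]; abel
      exact add_right_cancel h6
    exact hH.nc (C3_cyc hcl h4 (AddSubgroup.mem_zmultiples b))
  · -- 3
    have z1 : i1 + 2 * t = L := by omega
    have z2 : i2 = 1 := by omega
    have hb3 : b + b + b = 0 := by
      rw [h] at hsum3
      have h5 : (3 : ℕ) • a = a + a + a := by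
        rw [show (3 : ℕ) = 2 + 1 from rfl, add_nsmul, two_nsmul, one_nsmul]
      rw [h5] at hsum3
      exact add_eq_right.1 hsum3
    have ex2 : x' = x + b := by
      rw [e2, z2, one_smul]; abel
    -- `L = 2 t + 1`
    have hz : ((L : ℤ) - (2 * (t : ℤ) + 1)) • a = 0 := by
      have h1 : x + x + b = (L - 1) • a := by
        have h1 : x + b = (L - 1) • a - x := by rw [← ex2, ex']
        rw [eq_sub_iff_add_eq] at h1
        rw [← h1]; abel
      have h2 : x = t • a + b - a + i1 • a := by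
        rw [e1]; abel
      have h3' : L • a = (2 * t + 2 * i1) • a - a := by
        have h4 : L • a = (L - 1) • a + a := by
          rw [← succ_nsmul, show L - 1 + 1 = L by omega]
        rw [h4, ← h1, h2, add_nsmul, mul_nsmul', mul_nsmul', two_nsmul, two_nsmul]
        have : t • a + b - a + i1 • a + (t • a + b - a + i1 • a) + b + a =
          (b + b + b) + (t • a + t • a + (i1 • a + i1 • a) - a) := by abel
        rw [this, hb3, zero_add]
      have h5 : (2 * t + 2 * i1) • a = (L + L) • a - (t • a + t • a) := by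
        rw [eq_sub_iff_add_eq, ← two_nsmul, ← mul_nsmul', ← add_nsmul]
        congr 1
        omega
      rw [h5, add_nsmul] at h3'
      have h6 : L • a = t • a + t • a + a := by
        have h7 : L • a + L • a - (t • a + t • a) - a - L • a = 0 := by
          rw [sub_eq_zero]; exact h3'.symm
        have h8 : L • a = (L • a + L • a - (t • a + t • a) - a - L • a) + (t • a + t • a + a) := by abel
        rw [h8, h7, zero_add]
      rw [sub_smul, add_smul, mul_smul, one_smul, natCast_zsmul, natCast_zsmul, h6]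
      rw [show (2 : ℤ) • (t • a) = t • a + t • a from two_zsmul _]
      abel
    have hdvd : (r : ℤ) ∣ (L : ℤ) - (2 * (t : ℤ) + 1) := (addOrderOf_dvd_iff_zsmul_eq_zero).2 hz
    have hL2 : (L : ℤ) - (2 * (t : ℤ) + 1) = 0 := by
      refine Int.eq_zero_of_abs_lt_dvd hdvd ?_
      rw [abs_lt]
      constructor <;> omega
    have z3 : i1 = 1 := by omega
    refine hfin b hb0 rfl hb3 ?_ ex2
    rw [z3, one_smul] at e1
    have : x = t • a + b := by rw [e1]; abel
    rw [this]; abel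

end Pool.Agent.KAU
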