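import Pool.Agent.KAT.All
import Pool.Agent.KAU.B1q
import Pool.Agent.KAU.B2q
import Pool.Agent.KAU.B3q
import Pool.Agent.KAU.B4q
import Pool.Agent.KAU.Ktq
import Pool.Agent.KAU.Kaq
import Pool.Agent.KAU.Kbq
import Pool.Agent.KAU.C2q
import Pool.Agent.KAU.C3q
import Pool.Agent.KAU.C4q
import Pool.Agent.KAU.Coq
import Pool.Agent.KAU.Dfq
import Pool.Agent.KAU.Qtq
import Pool.Agent.KAU.GRA

/-!
# KAU: assembly (helper86)
-/

set_option autoImplicit false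

noncomputable section

open Finset Pool.Agent.Helper64.Rho Pool.Agent.SDG Pool.Agent.MDR Pool.Agent.SSE Pool.Agent.KAT
open scoped Classical Pointwise

namespace Pool.Agent.KAU

theorem all_Kaq : St_Kaq := thm_Kaq thm_Rw thm_Fr
theorem all_Ktq : St_Ktq := thm_Ktq thm_Rw Pool.Agent.KAT.thm_Sg
theorem all_B1q : St_B1q := thm_B1q thm_Rw Pool.Agent.KAT.thm_Sg thm_Fr all_Pk
theorem all_B2q : St_B2q := thm_B2q thm_Rw thm_Fr all_Pk
theorem all_B3q : St_B3q := thm_B3q thm_Rw thm_Fr all_Pk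
theorem all_B4q : St_B4q := thm_B4q thm_Rw Pool.Agent.KAT.thm_Sg thm_Fr
theorem all_Kbq : St_Kbq := thm_Kbq thm_Rw all_Ktq all_B1q all_B2q all_B3q all_B4q
theorem all_C2q : St_C2q := thm_C2q thm_Rw Pool.Agent.KAT.thm_Sg
theorem all_C3q : St_C3q := thm_C3q thm_Rw Pool.Agent.KAT.thm_Sg
theorem all_C4q : St_C4q := thm_C4q thm_Rw Pool.Agent.KAT.thm_Sg
theorem all_Coq : St_Coq := thm_Coq all_Kaq all_Kbq all_C1 all_C2q all_C3q all_C4q
theorem all_Dfq : St_Dfq := thm_Dfq thm_Rw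
theorem all_Qtq : St_Qtq := thm_Qtq thm_Rw thm_Fr
theorem all_GRA : St_GRA := thm_GRA thm_Rw thm_Fr all_Coq all_Dfq all_Qtq

end Pool.Agent.KAU
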