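import Mathlib
import Pool.Agent.KAT.St

/-!
# KAU: growth of symmetric sets in arbitrary finite abelian groups (MP_ec93d3_co)

Architect helper86.  This is the growth theorem of `Pool.Agent.KAT` WITHOUT the hypothesis on the rank.  Definitions: `rq`, `tq`, `SY`, `NK1`, `Gr3`, `Two`, `Tri`
(Pool.Agent.KAT.St; `open Pool.Agent.KAT`), `lam` (Helper64.Rho), `it`, `st`, `Aper`, `gen` (Pool.Agent.SDG.St), `AS`, `sym`, `NearP`, `ins` (Pool.Agent.MDR.St), `AE`, `NF`,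
`APK`, `im` (Pool.Agent.SSE.St).

Notation in the docstrings: `n = |G|`, `k = |K|`, `w γ = |rq D K γ|`, `D̄ = im D K`, `m = |D̄|`, `q = n / k`, `i D = it D i`.
Every `St_X` is a statement; its proof is in the docstring.  A module `Pool/Agent/KAU/X.lean` proves `thm_X : St_A → St_B → ... → St_X` with exactly the hypotheses listed in the
docstring (`KAT.X` = `Pool.Agent.KAT.St_X`); landed theorems such as `Pool.Agent.SSE.thm_GS` may be imported and used directly.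
[adapt KAT.X] = copy Pool/Agent/KAT/X.lean, replace `Hyp` by `Hyq` and change the marked places.
DO NOT use the tactic `convert`; for two decidability instances use `Subsingleton.elim`.
-/

set_option autoImplicit false

noncomputable section

open Finset Pool.Agent.Helper64.Rho Pool.Agent.SDG Pool.Agent.MDR Pool.Agent.SSE Pool.Agent.KAT
open scoped Classical Pointwise

namespace Pool.Agent.KAU

/-- dense cosets exist only for subgroups of order at most `κ` (or, if `κ = 4`, for subgroups killed by 2) -/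
def DCt {G : Type} [AddCommGroup G] (κ : ℕ) (D : Finset G) : Prop :=
  ∀ (K : AddSubgroup G) (γ : G ⧸ K), K ≠ ⊥ → γ + γ ≠ 0 → 2 * Nat.card K + 1 ≤ 2 * (rq D K γ).card + (rq D K 0).card →
    Nat.card K ≤ κ ∨ (κ = 4 ∧ ∀ x ∈ K, x + x = 0)

/-- a family has dense cosets only for subgroups of order at most 4 or killed by 2 -/
def DCX {G ι : Type} [AddCommGroup G] (u : Finset ι) (f : ι → G) : Prop :=
  ∀ (K : AddSubgroup G) (c : G), K ≠ ⊥ → c + c ∉ K →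
    Nat.card K ≤ (u.filter fun i => f i - c ∈ K ∨ f i + c ∈ K).card + (ins u f K).card → Nat.card K ≤ 4 ∨ ∀ x ∈ K, x + x = 0

/-- hypotheses of the core; `κ = 1` is used for the quotient by a group of order 3 -/
structure Hyq {G : Type} [AddCommGroup G] [Finite G] (κ l : ℕ) (D : Finset G) : Prop where
  nc : ¬ IsAddCyclic G
  sy : SY D
  cl : AddSubgroup.closure (D : Set G) = ⊤
  cd : D.card = 2 * l + 1
  nG : 4 * l + 1 ≤ Nat.card G
  nf : ¬ NearP D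
  dc : DCt κ D
  kl : (κ = 4 ∧ 5 ≤ l) ∨ (κ = 1 ∧ 2 ≤ l ∧ 4 * l + 2 ≤ Nat.card G)

/-- the growth from the third step on, with a larger tolerance -/
def Gr3q {G : Type} [AddCommGroup G] [Finite G] (κ l : ℕ) (D : Finset G) : Prop :=
  ∀ i, 3 ≤ i → (Nat.card G ≤ (it D i).card + κ ∨ i * (2 * l + 2) ≤ (it D i).card + 1 ∨
    (i * (2 * l + 2) ≤ (it D i).card + 2 ∧ κ = 1)) ∨ ∃ τ : ℕ, 5 * τ ≤ 2 * l + 1 ∧ Nat.card G ≤ (it D i).card + τ

/-- the growth -/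
def Groq {G : Type} [AddCommGroup G] [Finite G] (κ l : ℕ) (D : Finset G) : Prop :=
  ∀ i, 1 ≤ i → (Nat.card G ≤ (it D i).card + κ ∨ i * (2 * l + 2) ≤ (it D i).card + 1 ∨
    (i * (2 * l + 2) ≤ (it D i).card + 2 ∧ (i = 2 ∨ κ = 1))) ∨ ∃ τ : ℕ, 5 * τ ≤ 2 * l + 1 ∧ Nat.card G ≤ (it D i).card + τ

/-- admissible tolerances -/
def TolP (l τ : ℕ) : Prop := τ ≤ 4 ∨ 2 * τ ≤ l + 1 ∨ (l % 2 = 0 ∧ 3 * τ ≤ 2 * l)

/-- **Kaq** (2 h, from KAT.Rw, KAT.Fr; SSE.GS).  [adapt KAT.Ka].  Almost nearly filled sets.  Proof.  Choose `K` as in KAT.Ka: `|st D K| = |D| + k`, `k m = 2 l + 1 + k`, `(m - 1) k = 2 l + 1`, `k` odd, `m` even.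
(B) some `γ ∈ D̄` has `γ + γ ≠ 0`: exactly as in KAT.Ka; `DCt` gives `k ≤ κ` or `K` is killed by 2; the latter is impossible since `k ≥ 2` is odd (`K ≠ ⊥` contains a nonzero `x`; `x + x = 0` gives `addOrderOf x = 2 ∣ k`).
(A) all `γ ∈ D̄` have `γ + γ = 0`.  `m = 2`: as in KAT.Ka (index two).  Now `m ≥ 4`.  Let `e δ = k - w δ`; `∑_{δ ∈ D̄} e δ = k` (as in KAT.Ka), and `e δ ≥ 1` for `δ ∈ D̄ \ {0}` (`w δ` is even by Rw (9), `k` is odd); there are `m - 1 ≥ 3` such `δ`.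
So for `δ ≠ δ'` in `D̄`: `e δ + e δ' ≤ k - 1` (there is a third nonzero element), `w δ + w δ' ≥ k + 1`, and the coset `δ + δ'` is full in `D + D` (Fr (3)).  There is `δ1 ∈ D̄ \ {0}` with `2 e δ1 ≤ k - 1`: for two different `δ1, δ2 ∈ D̄ \ {0}` we have `e δ1 + e δ2 ≤ k - 1`, take the smaller one; so the
coset `0 = δ1 + δ1` is full in `D + D`.  Hence every row of `it D 2 = D + D` is full (`δ + δ' = 0` if `δ = δ'`), and so is every row of `it D i`, `i ≥ 2` (Fr (2), (6): `it D i = it D 2 + it D (i - 2)`): `|it D i| = k |it D̄ i|`.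
`D̄` is not nearly filled and `¬ APK D̄ ⊥` as in KAT.Ka (the same proof works for all odd `k`: `k |st D̄ K̄'| = |st D K'| ≥ |D| + |K'| + 1 = k (m - 1) + k |K̄'| + 1` for the preimage `K'`, so `|st D̄ K̄'| ≥ m + |K̄'|`).
`Ka_ind`: `|it D̄ i| ≥ i m`, so `|it D i| ≥ k i m = i (2 l + 1 + k) ≥ i (2 l + 2)`; or `|it D̄ i| + 1 ≥ q`, so `|it D i| ≥ n - k`: if `m ≥ 6` then `5 k ≤ (m - 1) k = 2 l + 1`: last alternative with `τ = k`.
If `m = 4`: `D̄ = {0, a, b, c}`, and the set of all sums `0, a, b, c, a + b, a + c, b + c, a + b + c` is closed under addition and contains `D̄`, which generates `G / K`; so `it D̄ 3 ⊇` this set `= G / K`, and `it D i = G` for `i ≥ 3` (`it D 3 ⊆ it D i`). -/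
def St_Kaq : Prop :=
  ∀ (G : Type) [AddCommGroup G] [Finite G] (κ l : ℕ) (D : Finset G), Hyq κ l D →
    (∃ K : AddSubgroup G, K ≠ ⊥ ∧ K ≠ ⊤ ∧ (st D K).card ≤ D.card + Nat.card K) → Gr3q κ l D

/-- **Ktq** (from KAT.Rw, KAT.Sg).  [copy KAT.Kt]. -/
def St_Ktq : Prop :=
  ∀ (G : Type) [AddCommGroup G] [Finite G] (κ l : ℕ) (D : Finset G) (d : G), Hyq κ l D → NK1 D → d ≠ 0 → lam D d ≤ 2 →
    ∃ γ1 γ2 : G ⧸ AddSubgroup.zmultiples d, Two D d γ1 γ2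

/-- **B1q** (0.7 h, from KAT.Rw, KAT.Sg, KAT.Fr, KAT.Pk).  [adapt KAT.B1].  Proof.  As in KAT.B1 there is a full row `δ ∈ D̄ \ {0, γ}` (otherwise `G` is cyclic, case (b) there).  Then the argument of case (a) there (every row of `it D i`, `i ≥ 3`, is full; it does not use `δ + δ ≠ 0`), and Pk with `e = 0`. -/
def St_B1q : Prop :=
  ∀ (G : Type) [AddCommGroup G] [Finite G] (κ l : ℕ) (D : Finset G) (d : G) (γ : G ⧸ AddSubgroup.zmultiples d), Hyq κ l D → NK1 D →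
    Two D d 0 γ → Gr3 κ l D

/-- **B2q** (0.7 h, from KAT.Rw, KAT.Fr, KAT.Pk).  [adapt KAT.B2].  Proof.  `γ1 + γ1 = 0 = γ2 + γ2`.  Let `i ≥ 3`, `η = δ_1 + ... + δ_i`, `δ_j ∈ D̄`.  If some `δ_j ≠ γ1, γ2` then it is a full row and `η` is full in `it D i`.  Otherwise two of the `δ_j` are equal, their sum is `0 = 0 + 0`, and the row 0 is full.
So every row of `it D i` is full; Pk with `e = 0`. -/
def St_B2q : Prop :=
  ∀ (G : Type) [AddCommGroup G] [Finite G] (κ l : ℕ) (D : Finset G) (d : G) (γ1 γ2 : G ⧸ AddSubgroup.zmultiples d), Hyq κ l D → NK1 D →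
    Two D d γ1 γ2 → γ1 ≠ 0 → γ2 ≠ 0 → γ1 + γ1 = 0 → Gr3 κ l D

/-- **B3q** (from KAT.Rw, KAT.Fr, KAT.Pk).  [adapt KAT.B3]: `DCt`, `k` odd. -/
def St_B3q : Prop :=
  ∀ (G : Type) [AddCommGroup G] [Finite G] (κ l : ℕ) (D : Finset G) (d : G) (γ δ : G ⧸ AddSubgroup.zmultiples d), Hyq κ l D → NK1 D →
    Two D d γ (-γ) → γ ≠ 0 → γ + γ ≠ 0 → δ ∈ im D (AddSubgroup.zmultiples d) → δ ≠ 0 → δ ≠ γ → δ ≠ -γ → Gr3 κ l D

/-- **B4q** (from KAT.Rw, KAT.Sg, KAT.Fr).  [copy KAT.B4]. -/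
def St_B4q : Prop :=
  ∀ (G : Type) [AddCommGroup G] [Finite G] (κ l : ℕ) (D : Finset G) (d : G) (γ : G ⧸ AddSubgroup.zmultiples d), Hyq κ l D → NK1 D →
    Two D d γ (-γ) → γ ≠ 0 → γ + γ ≠ 0 → (∀ δ ∈ im D (AddSubgroup.zmultiples d), δ = 0 ∨ δ = γ ∨ δ = -γ) → Gr3 κ l D

/-- **Kbq** (from KAT.Rw, Ktq, B1q, B2q, B3q, B4q).  [copy KAT.Kb]. -/
def St_Kbq : Prop :=
  ∀ (G : Type) [AddCommGroup G] [Finite G] (κ l : ℕ) (D : Finset G) (d : G), Hyq κ l D → NK1 D → d ≠ 0 → lam D d ≤ 2 → Gr3 κ l D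

/-- **C2q** (from KAT.Rw, KAT.Sg).  [adapt KAT.C2]: `K = ⟨a⟩` killed by 2 gives `r ≤ 2`. -/
def St_C2q : Prop :=
  ∀ (G : Type) [AddCommGroup G] [Finite G] (κ l : ℕ) (D : Finset G) (a b : G), Hyq κ l D → NK1 D → Tri D a b →
    AddSubgroup.closure {a, b} = ⊤ →
      (∀ γ : G ⧸ AddSubgroup.zmultiples a, 1 ≤ (rq D (AddSubgroup.zmultiples a) γ).card) ∧
      (∀ γ : G ⧸ AddSubgroup.zmultiples a, 1 ≤ (tq D (AddSubgroup.zmultiples a) a γ).card) ∧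
      (∀ γ : G ⧸ AddSubgroup.zmultiples a, (rq D (AddSubgroup.zmultiples a) γ).card + 1 ≤ Nat.card (AddSubgroup.zmultiples a)) ∧
      ((AddSubgroup.zmultiples a).index = 2 ∨ (AddSubgroup.zmultiples a).index = 3)

/-- **C3q** (from KAT.Rw, KAT.Sg).  [copy KAT.C3]. -/
def St_C3q : Prop :=
  ∀ (G : Type) [AddCommGroup G] [Finite G] (κ l : ℕ) (D : Finset G) (a b : G), Hyq κ l D → NK1 D → Tri D a b →
    AddSubgroup.closure {a, b} = ⊤ →
      (∀ γ : G ⧸ AddSubgroup.zmultiples a, 1 ≤ (rq D (AddSubgroup.zmultiples a) γ).card) →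
      (∀ γ : G ⧸ AddSubgroup.zmultiples a, 1 ≤ (tq D (AddSubgroup.zmultiples a) a γ).card) →
      (∀ γ : G ⧸ AddSubgroup.zmultiples a, (rq D (AddSubgroup.zmultiples a) γ).card + 1 ≤ Nat.card (AddSubgroup.zmultiples a)) →
      (AddSubgroup.zmultiples a).index ≠ 3

/-- **C4q** (from KAT.Rw, KAT.Sg).  [copy KAT.C4]. -/
def St_C4q : Prop :=
  ∀ (G : Type) [AddCommGroup G] [Finite G] (κ l : ℕ) (D : Finset G) (a b : G), Hyq κ l D → NK1 D → Tri D a b →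
    AddSubgroup.closure {a, b} = ⊤ →
      (∀ γ : G ⧸ AddSubgroup.zmultiples a, 1 ≤ (rq D (AddSubgroup.zmultiples a) γ).card) →
      (∀ γ : G ⧸ AddSubgroup.zmultiples a, 1 ≤ (tq D (AddSubgroup.zmultiples a) a γ).card) →
      (∀ γ : G ⧸ AddSubgroup.zmultiples a, (rq D (AddSubgroup.zmultiples a) γ).card + 1 ≤ Nat.card (AddSubgroup.zmultiples a)) →
      (AddSubgroup.zmultiples a).index ≠ 2

/-- **Coq** (from Kaq, Kbq, KAT.C1, C2q, C3q, C4q; SSE.GS, KAT.two_atom).  [copy KAT.Co]. -/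
def St_Coq : Prop :=
  ∀ (G : Type) [AddCommGroup G] [Finite G] (κ l : ℕ) (D : Finset G), Hyq κ l D → Groq κ l D

/-- **Dfq** (from KAT.Rw; SSE.SyE).  [copy KAT.Df]. -/
def St_Dfq : Prop :=
  ∀ (G ι : Type) [AddCommGroup G] [Finite G] (u : Finset ι) (f : ι → G), AE u f → DCX u f → DCt 4 (sym u f) ∧ SY (sym u f)

/-- **Qtq** (0.8 h, from KAT.Rw, KAT.Fr).  [adapt KAT.Qt]: the preimage `H` of `H̄` has order `3 |H̄|`, so it contains an element of order 3 and is not killed by 2. -/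
def St_Qtq : Prop :=
  ∀ (G : Type) [AddCommGroup G] [Finite G] (l : ℕ) (D : Finset G) (K : AddSubgroup G),
    SY D → AddSubgroup.closure (D : Set G) = ⊤ → D.card = 2 * l + 1 →
    4 * l + 1 ≤ Nat.card G → DCt 4 D → 5 ≤ l → Nat.card K = 3 → (st D K).card = D.card → ¬ NearP (im D K) → ¬ IsAddCyclic (G ⧸ K) →
      ∃ l' : ℕ, l = 3 * l' + 1 ∧ Hyq 1 l' (im D K)

/-- **GRA** (2.5 h, from KAT.Rw, KAT.Fr, Coq, Dfq, Qtq; SSE.GS, GwE, Gk, Mx, Cy).  [adapt KAT.GRO].  THE THEOREM.  `D = sym u f`, `l = |u|`, `|D| = 2 l + 1`, `n ≥ l (l - 1) + 2 ≥ 4 l + 1`.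
`¬ NearP D`: `Hyq 4 l D`, Coq (`κ = 4`; `5 τ ≤ 2 l + 1` gives `2 τ ≤ l + 1`).
`NearP D`: SSE.Mx gives `K`, `NF D K`, `|st D K| = k m`, `¬ NearP D̄`; `∑_{δ ∈ D̄} (k - w δ) = k m - (2 l + 1) ≤ k - 1` (deficits `e δ = k - w δ`).
(a) Some `γ ∈ D̄` has `γ + γ ≠ 0`.  As in KAT.GRO `2 k + 1 ≤ w 0 + 2 w γ`, so by `DCt`: `k ≤ 4` or `K` is killed by 2.
(a1) `k ≤ 4`: as in KAT.GRO (all tolerances there are `≤ 4`; in the noncyclic quotient, `k = 3`, `l = 3 l' + 1`, Coq with `κ = 1` has the new alternative `5 τ' ≤ 2 l' + 1`, `q ≤ |it D̄ i| + τ'`: `τ = 3 τ'`, `5 τ ≤ 6 l' + 3 = 2 l + 1`).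
(a2) `k ≥ 5` and `K` is killed by 2.  `rq D K 0 = {0}` (`SY`: the elements of `K` are involutions or 0), `e 0 = k - 1`, so all other rows of `D` are full: `(m - 1) k = 2 l`.  For `i ≥ 2` all rows of `it D i` are full: a sum of `i` elements of `D̄` that are not all `0` is full (Fr (2)), and `0 = γ + (-γ)` is full in `D + D`
(`|it D i| = k |it D̄ i|`; this is also SSE.Gk).  `APK D̄ ⊥` gives `APK D K` as in KAT.GRO (first alternative; `K` is killed by 2).  Otherwise GS repeatedly (`Gn_ind` / `Ka_ind`): `|it D̄ i| ≥ i m`: `|it D i| ≥ i (2 l + k)`; or `|it D̄ i| + 1 ≥ q`: `n ≤ |it D i| + k`.  `m ≥ 5`: `4 k ≤ 2 l`, `τ = k`.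
`m = 4`: `3 k = 2 l`; `k` is even (`K ≠ ⊥` contains an element of order 2), `k = 2 k'`, `l = 3 k'`; and `4 ∣ k` because `k ≥ 5` and `K` is killed by 2 (`|K|` is a power of 2: `K` is a 2-group), so `l` is even: third case of `TolP`.  `m = 3`: `D̄ = {0, γ, -γ}`, so `APK D̄ ⊥` (`a = 1`; `γ` generates `G / K`).  `m ≤ 2` is impossible (`0, γ, -γ` are different).
(b) All `γ ∈ D̄` have `γ + γ = 0` (so `x + x ∈ K` for all `x : G`).  `(m - 1) k ≤ 2 l` (from `k m ≤ 2 l + k`).  `m = 1`: `D ⊆ K`, `K = ⊤`: no.  `m = 2`: `q = 2` (`D̄ = {0, γ}` generates), `n = 2 k ≤ 4 l`: contradiction.  `m = 3`: `D̄ = {0, a, b}`, `q = 4` (`{0, a, b, a + b}` is closed under addition), `n = 4 k ≤ 4 l`: contradiction.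
`m ≥ 4`: rows: for `δ ≠ δ'` in `D̄`: `e δ + e δ' ≤ k - 1`, the coset `δ + δ'` is full in `D + D` (Fr (3)); the smaller one of two deficits satisfies `2 e δ ≤ k - 1`, so `0 = δ + δ` is full in `D + D`.  So `|it D i| = k |it D̄ i|` for `i ≥ 2` (as in Kaq).  `k m ≥ 2 l + 2`: otherwise `k m = 2 l + 1`, `k` is odd and `e δ = 0` for all `δ`, but `w δ` is even for
`δ ∈ D̄ \ {0}` (Rw (9)).  `¬ APK D̄ ⊥`: `G / K` would be cyclic of exponent 2, `q ≤ 2 < m`.  GS repeatedly: `|it D̄ i| ≥ i m`: `|it D i| ≥ i (2 l + 2)`; or `|it D̄ i| + 1 ≥ q`: `n ≤ |it D i| + k`.  `m ≥ 5`: `4 k ≤ 2 l`, `τ = k`.  `m = 4`: `D̄ = {0, a, b, c}`, `q ≤ 8` (all sums), `3 k ≤ 2 l`, `l (l - 1) + 2 ≤ n ≤ 8 k`, `3 l (l - 1) + 6 ≤ 16 l`,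
so `l ≤ 6` and `k ≤ 4`: `τ = k ≤ 4`. -/
def St_GRA : Prop :=
  ∀ (G ι : Type) [AddCommGroup G] [Finite G] (u : Finset ι) (f : ι → G), ¬ IsAddCyclic G → AE u f → gen u f = ⊤ → 5 ≤ u.card →
    DCX u f → u.card * (u.card - 1) + 2 ≤ Nat.card G →
      (∃ K : AddSubgroup G, NF (sym u f) K ∧ (Nat.card K ≤ 4 ∨ ∀ x ∈ K, x + x = 0) ∧ APK (sym u f) K) ∨
      ∀ i, 1 ≤ i → (∃ τ : ℕ, TolP u.card τ ∧ Nat.card G ≤ (it (sym u f) i).card + τ) ∨ i * (2 * u.card + 2) ≤ (it (sym u f) i).card + 1 ∨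
        (i = 2 ∧ 4 * u.card + 2 ≤ (it (sym u f) i).card)

end Pool.Agent.KAU
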